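import Mathlib

/-!
Balls: doubling implies a lower bound for the sphere/ball ratio.
-/

open Pointwise

namespace Pool.Agent.MB73

variable {G : Type*} [Group G] [DecidableEq G]

/-- If the balls `T^n` satisfy `2 |T^n| ≤ |T^(n+C)|` for all `n`, the sphere/ball ratio is bounded
below. -/
lemma ratio_of_doubling (T : Finset G) (h1 : (1 : G) ∈ T) (C : ℕ)
    (hC : ∀ n : ℕ, 2 * (T ^ n).card ≤ (T ^ (n + C)).card) :
    ∃ ε : ℝ, 0 < ε ∧ ∀ n : ℕ,
      ε * ((T ^ n).card : ℝ) ≤ ((T ^ (n + 1)).card : ℝ) - ((T ^ n).card : ℝ) := by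
  have hne : ∀ n : ℕ, (T ^ n).Nonempty := fun n => ⟨1, Finset.one_mem_pow h1⟩
  obtain _ | c := C
  · have := hC 0
    simp at this
  have hsub : ∀ n c : ℕ, T ^ (n + c + 1) ⊆ T ^ n ∪ (T ^ (n + 1) \ T ^ n) * T ^ c := by
    intro n c
    induction c with
    | zero =>
      intro x hx
      simp only [add_zero, pow_zero, mul_one] at hx ⊢
      by_cases h : x ∈ T ^ n
      · exact Finset.mem_union_left _ h
      · exact Finset.mem_union_right _ (Finset.mem_sdiff.mpr ⟨hx, h⟩)
    | succ c ih =>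
      intro x hx
      have : x ∈ T ^ (n + c + 1) * T := by
        rw [← pow_succ]; exact hx
      obtain ⟨y, hy, t, ht, rfl⟩ := Finset.mem_mul.mp this
      rcases Finset.mem_union.mp (ih hy) with h | h
      · have h2 : y * t ∈ T ^ (n + 1) := by rw [pow_succ]; exact Finset.mul_mem_mul h ht
        by_cases h3 : y * t ∈ T ^ n
        · exact Finset.mem_union_left _ h3
        · refine Finset.mem_union_right _ ?_
          rw [← mul_one (y * t)]
          exact Finset.mul_mem_mul (Finset.mem_sdiff.mpr ⟨h2, h3⟩) (Finset.one_mem_pow h1)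
      · obtain ⟨a, ha, b, hb, rfl⟩ := Finset.mem_mul.mp h
        refine Finset.mem_union_right _ ?_
        rw [mul_assoc]
        refine Finset.mul_mem_mul ha ?_
        rw [pow_succ]
        exact Finset.mul_mem_mul hb ht
  refine ⟨1 / ((T ^ c).card : ℝ), ?_, ?_⟩
  · have : 0 < (T ^ c).card := (hne c).card_pos
    positivity
  · intro n
    have hc : 0 < ((T ^ c).card : ℝ) := by
      have : 0 < (T ^ c).card := (hne c).card_pos
      exact_mod_cast this
    have k1 := Finset.card_le_card (hsub n c)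
    have k2 := hC n
    have k3 : (T ^ n).card + (T ^ (n + 1) \ T ^ n).card = (T ^ (n + 1)).card := by
      rw [add_comm]
      exact Finset.card_sdiff_add_card_eq_card
        (Finset.pow_subset_pow_right h1 (Nat.le_succ n))
    have k4 : (T ^ n ∪ (T ^ (n + 1) \ T ^ n) * T ^ c).card ≤
        (T ^ n).card + (T ^ (n + 1) \ T ^ n).card * (T ^ c).card :=
      (Finset.card_union_le _ _).trans (Nat.add_le_add_left Finset.card_mul_le _)
    have k5 : (T ^ n).card ≤ (T ^ (n + 1) \ T ^ n).card * (T ^ c).card := by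
      have e : n + (c + 1) = n + c + 1 := by ring
      rw [e] at k2
      omega
    have k6 : ((T ^ n).card : ℝ) ≤ ((T ^ (n + 1) \ T ^ n).card : ℝ) * ((T ^ c).card : ℝ) := by
      exact_mod_cast k5
    have k7 : ((T ^ n).card : ℝ) + ((T ^ (n + 1) \ T ^ n).card : ℝ) =
        ((T ^ (n + 1)).card : ℝ) := by exact_mod_cast k3
    rw [one_div, inv_mul_le_iff₀ hc]
    nlinarith

lemma pow_inv_mem (T : Finset G) (hT : ∀ t ∈ T, t⁻¹ ∈ T) (n : ℕ) {g : G} (hg : g ∈ T ^ n) :
    g⁻¹ ∈ T ^ n := by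
  have h : T⁻¹ = T := by
    ext x
    rw [Finset.mem_inv']
    exact ⟨fun h => by simpa using hT _ h, fun h => hT _ h⟩
  have h2 : (T ^ n)⁻¹ = T ^ n := by rw [← inv_pow, h]
  rw [← h2, Finset.mem_inv', inv_inv]
  exact hg

lemma exists_mem_pow (S : Finset G) (hS : Subgroup.closure (S : Set G) = ⊤) (g : G) :
    ∃ n : ℕ, g ∈ (S ∪ S⁻¹ ∪ {1}) ^ n := by
  have hg : g ∈ Subgroup.closure (S : Set G) := by rw [hS]; trivial
  induction hg using Subgroup.closure_induction with
  | mem x hx => exact ⟨1, by simp [Finset.mem_coe.mp hx]⟩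
  | one => exact ⟨0, by simp⟩
  | mul x y _ _ hx hy =>
    obtain ⟨a, ha⟩ := hx
    obtain ⟨b, hb⟩ := hy
    exact ⟨a + b, by rw [pow_add]; exact Finset.mul_mem_mul ha hb⟩
  | inv x _ hx =>
    obtain ⟨a, ha⟩ := hx
    refine ⟨a, pow_inv_mem _ ?_ a ha⟩
    intro t ht
    simp only [Finset.mem_union, Finset.mem_inv', Finset.mem_singleton] at ht ⊢
    rcases ht with (h | h) | h
    · left; right; simpa using h
    · left; left; exact h
    · right; simp [h]

lemma exists_finset_subset_pow (T : Finset G) (h1 : (1 : G) ∈ T)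
    (F : Finset G) (hT : ∀ g ∈ F, ∃ n : ℕ, g ∈ T ^ n) : ∃ n : ℕ, F ⊆ T ^ n := by
  induction F using Finset.induction_on with
  | empty => exact ⟨0, by simp⟩
  | insert a s _ ih =>
    obtain ⟨n, hn⟩ := ih (fun g hg => hT g (Finset.mem_insert_of_mem hg))
    obtain ⟨m, hm⟩ := hT a (Finset.mem_insert_self a s)
    refine ⟨max n m, ?_⟩
    intro x hx
    rcases Finset.mem_insert.mp hx with rfl | h
    · exact Finset.pow_subset_pow_right h1 (le_max_right n m) hm
    · exact Finset.pow_subset_pow_right h1 (le_max_left n m) (hn h)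

end Pool.Agent.MB73
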