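import Mathlib

/-!
The insertion argument.
-/

open Pointwise

namespace Pool.Agent.MB73

section
variable {G Γ Q R M F : Type*} [Group G] [DecidableEq G] [Group Γ] [CommGroup Q] [CommRing R]
    [AddCommGroup M] [Module R M] [Field F] (v : Valuation F (WithZero (Multiplicative ℤ)))
    (j : Q →* R) (ι : Q →* Γ) (π : G →* Γ) (ρ : Γ →* Module.End ℤ M) (β : G → M) (χ : R →+* F)

/-- the part of `M` of level at most the level of `q` -/
def W (B : Finset M) (q : Q) : AddSubgroup M :=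
  AddSubgroup.closure {m : M | ∃ q' : Q, ∃ b ∈ B,
      v (χ (j q')) ≤ v (χ (j q)) ∧ m = j q' • b}

lemma W_mono (B : Finset M) {q q' : Q} (h : v (χ (j q)) ≤ v (χ (j q'))) :
    W v j χ B q ≤ W v j χ B q' := by
  apply AddSubgroup.closure_mono
  rintro m ⟨q'', s, hs, h1, h2⟩
  exact ⟨q'', s, hs, h1.trans h, h2⟩

omit [DecidableEq G] in
lemma beta_one (hβ : ∀ g h, β (g * h) = β g + ρ (π g) (β h)) : β 1 = 0 := by
  have h := hβ 1 1
  rw [mul_one, map_one, map_one, Module.End.one_apply] at h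
  exact left_eq_add.mp h

omit [DecidableEq G] in
lemma beta_conj (hβ : ∀ g h, β (g * h) = β g + ρ (π g) (β h)) (f : G) (hf : π f = 1) (g : G) :
    β (g * f * g⁻¹) = ρ (π g) (β f) := by
  have h1 : β (g * g⁻¹) = 0 := by rw [mul_inv_cancel]; exact beta_one π ρ β hβ
  rw [hβ] at h1
  rw [hβ, hβ, map_mul, hf, mul_one]
  rw [add_right_comm, h1, zero_add]

lemma exists_top (hβ : ∀ g h, β (g * h) = β g + ρ (π g) (β h))
    (hj : ∀ (q : Q) (m : M), ρ (ι q) m = j q • m) (P : Finset Γ)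
    (hP : ∀ γ : Γ, ∃ q : Q, ∃ p ∈ P, γ = ι q * p) (T : Finset G) (B : Finset M)
    (hB : ∀ p ∈ P, ∀ s ∈ T, ρ p (β s) ∈ B) (n : ℕ) :
    ∀ x ∈ T ^ n, ∃ (u : G) (q : Q) (p : Γ) (a b : ℕ), π u = ι q * p ∧ p ∈ P ∧ a + b = n ∧
      u ∈ T ^ a ∧ u⁻¹ * x ∈ T ^ b ∧ β x ∈ W v j χ B q := by
  induction n with
  | zero =>
    intro x hx
    have hx1 : x = 1 := by simpa using hx
    obtain ⟨q, p, hp, e⟩ := hP 1
    refine ⟨1, q, p, 0, 0, by rw [map_one, e], hp, rfl, by simp, by simp [hx1], ?_⟩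
    rw [hx1, beta_one π ρ β hβ]
    exact zero_mem _
  | succ n ih =>
    intro x hx
    rw [pow_succ] at hx
    obtain ⟨x', hx', s, hs, rfl⟩ := Finset.mem_mul.mp hx
    obtain ⟨u, q, p, a, b, hu0, hp, hab, hu, hux, hW⟩ := ih x' hx'
    obtain ⟨q', p', hp', e⟩ := hP (π x')
    have hstep : β (x' * s) = β x' + j q' • (ρ p' (β s)) := by
      rw [hβ, e, map_mul, Module.End.mul_apply, hj]
    rcases le_total (v (χ (j q'))) (v (χ (j q))) with h | h
    · refine ⟨u, q, p, a, b + 1, hu0, hp, by omega, hu, ?_, ?_⟩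
      · rw [← mul_assoc, pow_succ]
        exact Finset.mul_mem_mul hux hs
      · rw [hstep]
        exact add_mem hW (AddSubgroup.subset_closure ⟨q', _, hB p' hp' s hs, h, rfl⟩)
    · refine ⟨x', q', p', n, 1, e, hp', rfl, hx', ?_, ?_⟩
      · simpa using hs
      · rw [hstep]
        exact add_mem (W_mono v j χ B h hW)
          (AddSubgroup.subset_closure ⟨q', _, hB p' hp' s hs, le_rfl, rfl⟩)

omit [AddCommGroup M] [Module R M] in
lemma unit_ne_zero (q : Q) : χ (j q) ≠ 0 := by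
  intro h
  have h1 : χ (j q) * χ (j q⁻¹) = 1 := by
    rw [← map_mul, ← map_mul, mul_inv_cancel, map_one, map_one]
  rw [h, zero_mul] at h1
  exact zero_ne_one h1

end

lemma exists_pow_ge (a b : WithZero (Multiplicative ℤ)) (hb : 1 < b) : ∃ K : ℕ, a ≤ b ^ K := by
  obtain ⟨K, hK⟩ := MulArchimedean.arch a hb
  exact ⟨K, hK⟩

lemma mem_pow_common {G : Type*} [Group G] [DecidableEq G] (T : Finset G) (h1 : (1 : G) ∈ T)
    (hgen : ∀ g : G, ∃ n : ℕ, g ∈ T ^ n) (E : Finset G) : ∃ n : ℕ, ∀ g ∈ E, g ∈ T ^ n := by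
  induction E using Finset.induction_on with
  | empty => exact ⟨0, by simp⟩
  | insert a s _ ih =>
    obtain ⟨n, hn⟩ := ih
    obtain ⟨m, hm⟩ := hgen a
    refine ⟨max n m, ?_⟩
    intro x hx
    rcases Finset.mem_insert.mp hx with rfl | h
    · exact Finset.pow_subset_pow_right h1 (le_max_right n m) hm
    · exact Finset.pow_subset_pow_right h1 (le_max_left n m) (hn x h)

theorem core {G Γ Q R M F : Type*} [Group G] [DecidableEq G] [Group Γ] [CommGroup Q] [CommRing R]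
    [AddCommGroup M] [Module R M] [Field F] (v : Valuation F (WithZero (Multiplicative ℤ)))
    (j : Q →* R) (ι : Q →* Γ) (π : G →* Γ) (hπ : Function.Surjective π)
    (ρ : Γ →* Module.End ℤ M) (β : G → M)
    (hβ : ∀ g h, β (g * h) = β g + ρ (π g) (β h))
    (hj : ∀ (q : Q) (m : M), ρ (ι q) m = j q • m) (P : Finset Γ)
    (hP : ∀ γ : Γ, ∃ q : Q, ∃ p ∈ P, γ = ι q * p)
    (χ : R →+* F) (f : G) (hf : π f = 1) (hχ : ∀ r : R, χ r = 0 ↔ r • β f = 0)
    (hinj : ∀ g g' : G, β (g * f * g⁻¹) = β (g' * f * g'⁻¹) → g * f * g⁻¹ = g' * f * g'⁻¹)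
    (T : Finset G) (h1 : (1 : G) ∈ T) (hgen : ∀ g : G, ∃ n : ℕ, g ∈ T ^ n)
    (B : Finset M) (hB : ∀ p ∈ P, ∀ s ∈ T, ρ p (β s) ∈ B)
    (C₁ : WithZero (Multiplicative ℤ))
    (H1 : ∀ (q : Q) (r : R), r • β f ∈ AddSubgroup.closure {m : M | ∃ q' : Q, ∃ b ∈ B,
      v (χ (j q')) ≤ v (χ (j q)) ∧ m = j q' • b} → v (χ r) ≤ C₁ * v (χ (j q)))
    (t : Q) (ht : 1 < v (χ (j t))) (δ : WithZero (Multiplicative ℤ)) (hδ : δ ≠ 0)
    (H2 : ∀ q : Q, v (χ (j q) - 1) ≤ δ → χ (j q) = 1) :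
    ∃ C : ℕ, ∀ n : ℕ, 2 * (T ^ n).card ≤ (T ^ (n + C)).card := by
  classical
  obtain ⟨K, hK⟩ := exists_pow_ge (C₁ * δ⁻¹) _ ht
  have hδ0 : 0 < δ := zero_lt_iff.mpr hδ
  have hK' : C₁ ≤ δ * v (χ (j t)) ^ K := by
    calc C₁ = C₁ * δ⁻¹ * δ := by rw [mul_assoc, inv_mul_cancel₀ hδ, mul_one]
      _ ≤ v (χ (j t)) ^ K * δ := mul_le_mul_left hK _
      _ = _ := mul_comm _ _
  have hw0 : ∀ q : Q, 0 < v (χ (j q)) := fun q =>
    zero_lt_iff.mpr ((Valuation.ne_zero_iff v).mpr (unit_ne_zero j χ q))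
  obtain ⟨t', ht'⟩ := hπ (ι t)
  -- the inserted elements
  set lift : Γ → G := Function.surjInv hπ with hlift
  have hl : ∀ γ, π (lift γ) = γ := Function.surjInv_eq hπ
  set F' : Γ → ℕ → G := fun p i =>
    (lift p)⁻¹ * t' ^ (K + i) * f * ((lift p)⁻¹ * t' ^ (K + i))⁻¹ with hF'
  obtain ⟨C, hC⟩ := mem_pow_common T h1 hgen ((P ×ˢ Finset.range 2).image fun z => F' z.1 z.2)
  refine ⟨C, fun n => ?_⟩
  have htop : ∀ x : G, ∃ u : G, ∃ q : Q, ∃ p : Γ, x ∈ T ^ n → ∃ a b : ℕ, π u = ι q * p ∧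
      p ∈ P ∧ a + b = n ∧ u ∈ T ^ a ∧ u⁻¹ * x ∈ T ^ b ∧ β x ∈ W v j χ B q := by
    intro x
    by_cases hx : x ∈ T ^ n
    · obtain ⟨u, q, p, a, b, h⟩ := exists_top v j ι π ρ β χ hβ hj P hP T B hB n x hx
      exact ⟨u, q, p, fun _ => ⟨a, b, h⟩⟩
    · exact ⟨1, 1, 1, fun h => absurd h hx⟩
  choose U q p hU using htop
  have hconj : ∀ (x : G) (i : ℕ), U x * F' (p x) i * (U x)⁻¹
      = (U x * (lift (p x))⁻¹ * t' ^ (K + i)) * f *
        (U x * (lift (p x))⁻¹ * t' ^ (K + i))⁻¹ := by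
    intro x i
    simp only [hF', mul_inv_rev, mul_assoc]
  have hπg : ∀ x ∈ T ^ n, ∀ i : ℕ, π (U x * (lift (p x))⁻¹ * t' ^ (K + i))
      = ι (q x * t ^ (K + i)) := by
    intro x hx i
    obtain ⟨-, -, e, -⟩ := hU x hx
    rw [map_mul, map_mul, map_inv, hl, e, map_pow, ht', mul_inv_cancel_right, map_mul, map_pow]
  -- the decoding
  have key : ∀ x ∈ T ^ n, ∀ x' ∈ T ^ n, ∀ i i' : ℕ,
      v (χ (j (q x'))) ≤ v (χ (j (q x))) →
      U x * F' (p x) i * (U x)⁻¹ * x = U x' * F' (p x') i' * (U x')⁻¹ * x' →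
      x = x' ∧ i = i' := by
    intro x hx x' hx' i i' hle heq
    obtain ⟨-, -, -, -, -, -, -, hWx⟩ := hU x hx
    obtain ⟨-, -, -, -, -, -, -, hWx'⟩ := hU x' hx'
    have hπg1 := hπg x hx i
    have hπg2 := hπg x' hx' i'
    rw [hconj, hconj] at heq
    set g : G := U x * (lift (p x))⁻¹ * t' ^ (K + i) with hg
    set g' : G := U x' * (lift (p x'))⁻¹ * t' ^ (K + i') with hg'
    have hπ1 : ∀ g : G, π (g * f * g⁻¹) = 1 := by
      intro g
      rw [map_mul, map_mul, hf, mul_one, map_inv, mul_inv_cancel]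
    have hβg : ∀ g y : G, β (g * f * g⁻¹ * y) = ρ (π g) (β f) + β y := by
      intro g y
      rw [hβ, hπ1, map_one, Module.End.one_apply, beta_conj π ρ β hβ f hf]
    have e1 : j (q x * t ^ (K + i)) • β f + β x = j (q x' * t ^ (K + i')) • β f + β x' := by
      rw [← hj, ← hj, ← hπg1, ← hπg2, ← hβg, ← hβg, heq]
    have e2 : (j (q x * t ^ (K + i)) - j (q x' * t ^ (K + i'))) • β f = β x' - β x := by
      rw [sub_smul, sub_eq_sub_iff_add_eq_add, e1, add_comm]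
    have e3 : v (χ (j (q x * t ^ (K + i)) - j (q x' * t ^ (K + i')))) ≤
        C₁ * v (χ (j (q x))) := by
      apply H1
      rw [e2]
      exact sub_mem (W_mono v j χ B hle hWx') hWx
    have e4 : ∀ (y : Q) (k : ℕ), v (χ (j (y * t ^ k))) = v (χ (j y)) * v (χ (j t)) ^ k := by
      intro y k
      rw [map_mul, map_mul, map_mul, map_pow, map_pow, map_pow]
    set a := q x * t ^ (K + i) with ha
    set a' := q x' * t ^ (K + i') with ha'
    have e5 : v (χ (j (a' * a⁻¹)) - 1) ≤ δ := by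
      have e6 : χ (j (a' * a⁻¹)) = χ (j a') * (χ (j a))⁻¹ := by
        rw [map_mul, map_mul]
        congr 1
        apply eq_inv_of_mul_eq_one_left
        rw [← map_mul, ← map_mul, inv_mul_cancel, map_one, map_one]
      have e7 : χ (j (a' * a⁻¹)) - 1 = -(χ (j a - j a')) * (χ (j a))⁻¹ := by
        rw [e6, map_sub]
        have := unit_ne_zero j χ a
        field_simp
        ring
      rw [e7, map_mul, Valuation.map_neg, map_inv₀, ← div_eq_mul_inv]
      rw [div_le_iff₀ (hw0 _)]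
      refine e3.trans ?_
      rw [ha, e4]
      calc C₁ * v (χ (j (q x))) ≤ (δ * v (χ (j t)) ^ K) * v (χ (j (q x))) :=
            mul_le_mul_left hK' _
        _ = (δ * v (χ (j (q x)))) * (v (χ (j t)) ^ K * 1) := by rw [mul_one]; ac_rfl
        _ ≤ (δ * v (χ (j (q x)))) * (v (χ (j t)) ^ K * v (χ (j t)) ^ i) := by
            apply mul_le_mul_right
            apply mul_le_mul_right
            exact one_le_pow₀ ht.le
        _ = _ := by rw [pow_add]; ac_rfl
    have e8 := H2 _ e5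
    have e9 : χ (j a') = χ (j a) := by
      have : χ (j (a' * a⁻¹)) * χ (j a) = χ (j a') := by
        rw [← map_mul, ← map_mul, mul_assoc, inv_mul_cancel, mul_one]
      rw [← this, e8, one_mul]
    have e10 : (j a - j a') • β f = 0 := by
      rw [← hχ, map_sub, e9, sub_self]
    have e11 : g * f * g⁻¹ = g' * f * g'⁻¹ := by
      apply hinj
      rw [beta_conj π ρ β hβ f hf, beta_conj π ρ β hβ f hf, hπg1, hπg2, hj, hj,
        ← sub_eq_zero, ← sub_smul, e10]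
    have e12 : x = x' := by
      rw [e11] at heq
      exact mul_left_cancel heq
    refine ⟨e12, ?_⟩
    have e13 : v (χ (j a')) = v (χ (j a)) := by rw [e9]
    rw [ha, ha', e4, e4, ← e12] at e13
    have e14 := mul_left_cancel₀ (hw0 _).ne' e13
    have := pow_right_injective₀ (zero_lt_one.trans ht) ht.ne' e14
    omega
  have hcount : ((T ^ n) ×ˢ (Finset.range 2)).card ≤ (T ^ (n + C)).card := by
    refine Finset.card_le_card_of_injOn (fun z => U z.1 * F' (p z.1) z.2 * (U z.1)⁻¹ * z.1)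
      ?_ ?_
    · rintro ⟨x, i⟩ hp
      rw [Finset.mem_coe, Finset.mem_product] at hp
      obtain ⟨hx, hi⟩ := hp
      obtain ⟨a, b, -, hpP, hab, hu, hux, -⟩ := hU x hx
      have hFi : F' (p x) i ∈ T ^ C :=
        hC _ (Finset.mem_image.mpr ⟨(p x, i), Finset.mem_product.mpr ⟨hpP, hi⟩, rfl⟩)
      have e : n + C = a + C + b := by omega
      rw [Finset.mem_coe, e, pow_add, pow_add]
      change U x * F' (p x) i * (U x)⁻¹ * x ∈ _
      rw [mul_assoc (U x * F' (p x) i)]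
      exact Finset.mul_mem_mul (Finset.mul_mem_mul hu hFi) hux
    · rintro ⟨x, i⟩ hp ⟨x', i'⟩ hp' heq
      rw [Finset.mem_coe, Finset.mem_product] at hp hp'
      simp only at heq
      rcases le_total (v (χ (j (q x')))) (v (χ (j (q x)))) with h | h
      · obtain ⟨e1, e2⟩ := key x hp.1 x' hp'.1 i i' h heq
        rw [e1, e2]
      · obtain ⟨e1, e2⟩ := key x' hp'.1 x hp.1 i' i h heq.symm
        rw [e1, e2]
  rw [Finset.card_product, Finset.card_range, mul_comm] at hcount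
  exact hcount

end Pool.Agent.MB73
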