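import Mathlib

/-!
Row H1 (100-150 lines). PROOF. Write `R = MonoidAlgebra ℤ Q`, `w q = v (χ (of q))` (never 0, since `of q` is a unit), a homomorphism `Q → ℤ`.
(a) Let `Q₀ = {q | w q = 1}`, a subgroup of the f.g. abelian group `Q`, so f.g. Let `t₀` be an element of `Q` with `1 < w t₀` minimal (exists by `ht`;
values in `WithZero (Multiplicative ℤ)`); then every `q : Q` is `t₀ ^ i * q₀` with `i : ℤ`, `q₀ ∈ Q₀` (division with remainder in `ℤ`).
(b) `O` = the subring (subalgebra over ℤ) of `R` generated by the `of q`, `w q ≤ 1`. It is generated by the finitely many `of` of a finite set generating `Q₀`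
as a monoid together with `of t₀⁻¹`, so it is a f.g. commutative ℤ-algebra, so Noetherian. `v (χ o) ≤ 1` for `o ∈ O` (integers have `v ≤ 1`, ultrametric).
(c) Let `W q` be the closure in the statement. `W 1` is the `O`-submodule of `M` generated by `B`, and `W q = of (t₀^i) • W 1` if `w q = (w t₀)^i`.
(d) `N = {x ∈ W 1 | x ∈ R • m₀}` is an `O`-submodule of the Noetherian `O`-module `W 1`, so it is generated by finitely many `r_1 • m₀, .., r_l • m₀`.
If `r • m₀ ∈ W 1` then `r • m₀ = ∑ o_i • r_i • m₀`, so `χ r = ∑ χ o_i χ r_i` by `hχ`, so `v (χ r) ≤ C₁ := max v (χ r_i)`.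
(e) in general `r • m₀ ∈ W q` gives `(of (t₀^(-i)) * r) • m₀ ∈ W 1`, so `v (χ r) ≤ C₁ * w q`.
-/

namespace Pool.Agent.MB73

theorem h1_ker {Q G : Type*} [CommGroup Q] [Group.FG Q] [Group G] (φ : Q →* G) :
    ∃ S : Finset Q, Subgroup.closure (S : Set Q) = φ.ker := by
  have h0 : AddGroup.FG (Additive Q) := GroupFG.iff_add_fg.1 ‹_›
  have h1 : Module.Finite ℤ (Additive Q) := Module.Finite.iff_addGroup_fg.2 h0
  have h2 : (AddSubgroup.toIntSubmodule (Subgroup.toAddSubgroup φ.ker)).FG :=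
    IsNoetherian.noetherian _
  have h3 := (Submodule.fg_iff_addSubgroup_fg _).1 h2
  rw [AddSubgroup.toIntSubmodule_toAddSubgroup] at h3
  exact (Subgroup.fg_iff_add_fg _).2 h3

theorem h1_int {F : Type*} [Field F] (v : Valuation F (WithZero (Multiplicative ℤ))) (r : ℤ) :
    v (r : F) ≤ 1 := by
  have h1 : (r : F) ∈ v.integer := intCast_mem _ r
  exact h1

/-- the values of `v` on a group of units, as integers -/
theorem h1_val {Q F : Type*} [CommGroup Q] [Field F]
    (v : Valuation F (WithZero (Multiplicative ℤ))) (χ : MonoidAlgebra ℤ Q →+* F) :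
    ∃ φ : Q →* Multiplicative ℤ, ∀ q, v (χ (MonoidAlgebra.of ℤ Q q)) = ((φ q : Multiplicative ℤ) :
      WithZero (Multiplicative ℤ)) := by
  let w : Q →* WithZero (Multiplicative ℤ) :=
    v.toMonoidWithZeroHom.toMonoidHom.comp
      (χ.toMonoidHom.comp (MonoidAlgebra.of ℤ Q))
  refine ⟨(WithZero.unitsWithZeroEquiv (α := Multiplicative ℤ)).toMonoidHom.comp w.toHomUnits,
    fun q => ?_⟩
  exact (WithZero.coe_unitsWithZeroEquiv_eq_units_val (w.toHomUnits q)).symm

/-- a homomorphism to the integers with a positive value has a smallest positive value -/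
theorem h1_gen {Q : Type*} [CommGroup Q] (φ : Q →* Multiplicative ℤ) (t : Q)
    (ht : 0 < Multiplicative.toAdd (φ t)) :
    ∃ t₀ : Q, 0 < Multiplicative.toAdd (φ t₀) ∧
      ∀ q, ∃ i : ℤ, φ q = φ (t₀ ^ i) := by
  let L : AddSubgroup ℤ :=
    { carrier := {n | ∃ q, Multiplicative.toAdd (φ q) = n}
      zero_mem' := ⟨1, by rw [map_one, toAdd_one]⟩
      add_mem' := by
        rintro _ _ ⟨q, rfl⟩ ⟨q', rfl⟩
        exact ⟨q * q', by rw [map_mul, toAdd_mul]⟩
      neg_mem' := by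
        rintro _ ⟨q, rfl⟩
        exact ⟨q⁻¹, by rw [map_inv, toAdd_inv]⟩ }
  obtain ⟨a, ha⟩ := Int.subgroup_cyclic L
  have hmem : ∀ n, n ∈ L ↔ ∃ z : ℤ, z * a = n := by
    intro n
    rw [ha, AddSubgroup.mem_closure_singleton]
    simp only [smul_eq_mul]
  have h1 : Multiplicative.toAdd (φ t) ∈ L := ⟨t, rfl⟩
  have ha0 : a ≠ 0 := by
    rintro rfl
    obtain ⟨z, hz⟩ := (hmem _).1 h1
    rw [mul_zero] at hz
    omega
  obtain ⟨q₁, hq₁⟩ : a ∈ L := (hmem a).2 ⟨1, one_mul a⟩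
  rcases lt_or_gt_of_ne ha0 with h | h
  · refine ⟨q₁⁻¹, ?_, fun q => ?_⟩
    · rw [map_inv, toAdd_inv, hq₁]
      omega
    · obtain ⟨z, hz⟩ := (hmem (Multiplicative.toAdd (φ q))).1 ⟨q, rfl⟩
      refine ⟨-z, ?_⟩
      apply Multiplicative.toAdd.injective
      rw [map_zpow, toAdd_zpow, map_inv, toAdd_inv, hq₁, ← hz, smul_eq_mul]
      ring
  · refine ⟨q₁, ?_, fun q => ?_⟩
    · rw [hq₁]
      exact h
    · obtain ⟨z, hz⟩ := (hmem (Multiplicative.toAdd (φ q))).1 ⟨q, rfl⟩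
      refine ⟨z, ?_⟩
      apply Multiplicative.toAdd.injective
      rw [map_zpow, toAdd_zpow, hq₁, ← hz, smul_eq_mul]

/-- the finitely generated algebra containing all `of q` of value at most one -/
theorem h1_alg {Q F : Type*} [CommGroup Q] [Group.FG Q] [Field F]
    (v : Valuation F (WithZero (Multiplicative ℤ))) (χ : MonoidAlgebra ℤ Q →+* F)
    (φ : Q →* Multiplicative ℤ) (hφ : ∀ q, v (χ (MonoidAlgebra.of ℤ Q q)) =
      ((φ q : Multiplicative ℤ) : WithZero (Multiplicative ℤ))) (t₀ : Q)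
    (ht₀ : 0 < Multiplicative.toAdd (φ t₀)) (hgen : ∀ q, ∃ i : ℤ, φ q = φ (t₀ ^ i)) :
    ∃ O : Subalgebra ℤ (MonoidAlgebra ℤ Q), O.FG ∧ (∀ x ∈ O, v (χ x) ≤ 1) ∧
      ∀ q, φ q ≤ 1 → MonoidAlgebra.of ℤ Q q ∈ O := by
  classical
  obtain ⟨S, hS⟩ := h1_ker φ
  let T : Finset (MonoidAlgebra ℤ Q) :=
    insert (MonoidAlgebra.of ℤ Q t₀⁻¹) (S.image (fun q => MonoidAlgebra.of ℤ Q q) ∪
      S.image (fun q => MonoidAlgebra.of ℤ Q q⁻¹))
  have hSk : ∀ q ∈ S, φ q = 1 := by
    intro q hq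
    have h1 : q ∈ φ.ker := by
      rw [← hS]
      exact Subgroup.subset_closure hq
    exact h1
  refine ⟨Algebra.adjoin ℤ (T : Set (MonoidAlgebra ℤ Q)), ⟨T, rfl⟩, ?_, ?_⟩
  · intro x hx
    induction hx using Algebra.adjoin_induction with
    | mem x hx =>
      rw [Finset.mem_coe, Finset.mem_insert, Finset.mem_union, Finset.mem_image,
        Finset.mem_image] at hx
      rcases hx with rfl | ⟨q, hq, rfl⟩ | ⟨q, hq, rfl⟩
      · rw [hφ, ← WithZero.coe_one, WithZero.coe_le_coe, ← Multiplicative.toAdd_le, map_inv,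
          toAdd_inv, toAdd_one]
        omega
      · rw [hφ, hSk q hq, WithZero.coe_one]
      · rw [hφ, map_inv, hSk q hq, inv_one, WithZero.coe_one]
    | algebraMap r =>
      have h1 : χ (algebraMap ℤ (MonoidAlgebra ℤ Q) r) = (r : F) := by
        rw [eq_intCast, map_intCast]
      rw [h1]
      exact h1_int v r
    | add x y _ _ hx hy =>
      rw [map_add]
      exact (v.map_add _ _).trans (max_le hx hy)
    | mul x y _ _ hx hy =>
      rw [map_mul, map_mul]
      exact mul_le_one' hx hy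
  · have hker : ∀ q ∈ φ.ker, MonoidAlgebra.of ℤ Q q ∈ Algebra.adjoin ℤ (T : Set (MonoidAlgebra ℤ Q)) ∧
        MonoidAlgebra.of ℤ Q q⁻¹ ∈ Algebra.adjoin ℤ (T : Set (MonoidAlgebra ℤ Q)) := by
      intro q hq
      rw [← hS] at hq
      induction hq using Subgroup.closure_induction with
      | mem x hx =>
        constructor
        · exact Algebra.subset_adjoin (Finset.mem_coe.2 (Finset.mem_insert_of_mem
            (Finset.mem_union_left _ (Finset.mem_image_of_mem _ hx))))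
        · exact Algebra.subset_adjoin (Finset.mem_coe.2 (Finset.mem_insert_of_mem
            (Finset.mem_union_right _ (Finset.mem_image_of_mem
              (fun q => MonoidAlgebra.of ℤ Q q⁻¹) hx))))
      | one =>
        rw [inv_one, map_one]
        exact ⟨one_mem _, one_mem _⟩
      | mul x y _ _ hx hy =>
        rw [mul_inv, map_mul, map_mul]
        exact ⟨mul_mem hx.1 hy.1, mul_mem hx.2 hy.2⟩
      | inv x _ hx =>
        rw [inv_inv]
        exact ⟨hx.2, hx.1⟩
    intro q hq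
    obtain ⟨i, hi⟩ := hgen q
    have h1 : q * (t₀ ^ i)⁻¹ ∈ φ.ker := by
      rw [MonoidHom.mem_ker, map_mul, map_inv, hi, mul_inv_cancel]
    have h2 : i ≤ 0 := by
      rw [hi, ← Multiplicative.toAdd_le, toAdd_one, map_zpow, toAdd_zpow, smul_eq_mul] at hq
      by_contra h
      have : 0 < i * Multiplicative.toAdd (φ t₀) := mul_pos (by omega) ht₀
      omega
    obtain ⟨n, hn⟩ := Int.eq_ofNat_of_zero_le (neg_nonneg.2 h2)
    have h3 : t₀ ^ i = (t₀⁻¹) ^ n := by
      rw [inv_pow, ← zpow_natCast, ← zpow_neg]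
      congr 1
      omega
    have h4 : MonoidAlgebra.of ℤ Q q = MonoidAlgebra.of ℤ Q t₀⁻¹ ^ n *
        MonoidAlgebra.of ℤ Q (q * (t₀ ^ i)⁻¹) := by
      rw [← map_pow, ← map_mul, ← h3]
      congr 1
      rw [mul_comm q, mul_inv_cancel_left]
    rw [h4]
    exact mul_mem (pow_mem (Algebra.subset_adjoin (Finset.mem_coe.2
      (Finset.mem_insert_self _ _))) n) (hker _ h1).1

theorem bound {Q F M : Type*} [CommGroup Q] [Group.FG Q] [Field F] [AddCommGroup M]
    [Module (MonoidAlgebra ℤ Q) M] (v : Valuation F (WithZero (Multiplicative ℤ)))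
    (χ : MonoidAlgebra ℤ Q →+* F) (m₀ : M) (hχ : ∀ r : MonoidAlgebra ℤ Q, r • m₀ = 0 → χ r = 0)
    (B : Finset M) (t : Q) (ht : 1 < v (χ (MonoidAlgebra.of ℤ Q t))) :
    ∃ C₁ : WithZero (Multiplicative ℤ), ∀ (q : Q) (r : MonoidAlgebra ℤ Q),
      r • m₀ ∈ AddSubgroup.closure {m : M | ∃ q' : Q, ∃ b ∈ B,
        v (χ (MonoidAlgebra.of ℤ Q q')) ≤ v (χ (MonoidAlgebra.of ℤ Q q)) ∧
        m = (MonoidAlgebra.of ℤ Q q' : MonoidAlgebra ℤ Q) • b} →
      v (χ r) ≤ C₁ * v (χ (MonoidAlgebra.of ℤ Q q)) := by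
  classical
  obtain ⟨φ, hφ⟩ := h1_val v χ
  have ht' : 0 < Multiplicative.toAdd (φ t) := by
    rw [hφ, ← WithZero.coe_one, WithZero.coe_lt_coe, ← Multiplicative.toAdd_lt, toAdd_one] at ht
    exact ht
  obtain ⟨t₀, ht₀, hgen⟩ := h1_gen φ t ht'
  obtain ⟨O, hfg, hO1, hO2⟩ := h1_alg v χ φ hφ t₀ ht₀ hgen
  have hft : Algebra.FiniteType ℤ O := (Subalgebra.fg_iff_finiteType O).1 hfg
  have hnoe : IsNoetherianRing O := Algebra.FiniteType.isNoetherianRing ℤ O
  have hW : IsNoetherian O (Submodule.span O (B : Set M)) :=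
    isNoetherian_span_of_finite O B.finite_toSet
  let N : Submodule O M := Submodule.span O (B : Set M) ⊓
    (Submodule.span (MonoidAlgebra ℤ Q) {m₀}).restrictScalars O
  have hN : N.FG := isNoetherian_submodule.1 hW N inf_le_left
  obtain ⟨T, hT⟩ := hN
  have hTρ : ∀ τ ∈ T, ∃ r : MonoidAlgebra ℤ Q, r • m₀ = τ := by
    intro τ hτ
    have h1 : τ ∈ N := by
      rw [← hT]
      exact Submodule.subset_span hτ
    have h2 : τ ∈ Submodule.span (MonoidAlgebra ℤ Q) {m₀} := h1.2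
    exact Submodule.mem_span_singleton.1 h2
  choose! ρ hρ using hTρ
  have key : ∀ x ∈ N, ∃ r : MonoidAlgebra ℤ Q, r • m₀ = x ∧
      v (χ r) ≤ T.sup fun τ => v (χ (ρ τ)) := by
    intro x hx
    rw [← hT] at hx
    induction hx using Submodule.span_induction with
    | mem x hx =>
      exact ⟨ρ x, hρ x hx, Finset.le_sup (f := fun τ => v (χ (ρ τ))) hx⟩
    | zero => exact ⟨0, zero_smul _ _, by rw [map_zero, map_zero]; exact zero_le⟩
    | add x y _ _ hx hy =>
      obtain ⟨r, hr, hr'⟩ := hx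
      obtain ⟨s, hs, hs'⟩ := hy
      refine ⟨r + s, by rw [add_smul, hr, hs], ?_⟩
      rw [map_add]
      exact (v.map_add _ _).trans (max_le hr' hs')
    | smul o x _ hx =>
      obtain ⟨r, hr, hr'⟩ := hx
      refine ⟨(o : MonoidAlgebra ℤ Q) * r, by rw [mul_smul, hr]; rfl, ?_⟩
      rw [map_mul, map_mul]
      exact (mul_le_mul' (hO1 o o.2) le_rfl).trans (by rw [one_mul]; exact hr')
  refine ⟨T.sup fun τ => v (χ (ρ τ)), ?_⟩
  intro q r hr
  obtain ⟨i, hi⟩ := hgen q
  set s : Q := t₀ ^ i with hs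
  have h1 : MonoidAlgebra.of ℤ Q s⁻¹ • (r • m₀) ∈ Submodule.span O (B : Set M) := by
    generalize r • m₀ = y at hr
    induction hr using AddSubgroup.closure_induction with
    | mem x hx =>
      obtain ⟨q', b, hb, hq', rfl⟩ := hx
      rw [hφ, hφ, WithZero.coe_le_coe, hi] at hq'
      have h2 : MonoidAlgebra.of ℤ Q (s⁻¹ * q') ∈ O := by
        refine hO2 _ ?_
        rw [map_mul, map_inv]
        exact inv_mul_le_one_iff.2 hq'
      rw [← mul_smul, ← map_mul]
      exact Submodule.smul_mem _ (⟨_, h2⟩ : O) (Submodule.subset_span hb)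
    | zero =>
      rw [smul_zero]
      exact Submodule.zero_mem _
    | add x y _ _ hx hy =>
      rw [smul_add]
      exact Submodule.add_mem _ hx hy
    | neg x _ hx =>
      rw [smul_neg]
      exact Submodule.neg_mem _ hx
  have h2 : (MonoidAlgebra.of ℤ Q s⁻¹ * r) • m₀ ∈ N := by
    refine ⟨?_, ?_⟩
    · rw [mul_smul]
      exact h1
    · exact Submodule.mem_span_singleton.2 ⟨_, rfl⟩
  obtain ⟨r', hr', hr''⟩ := key _ h2
  have h3 : χ (MonoidAlgebra.of ℤ Q s⁻¹ * r) = χ r' := by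
    rw [← sub_eq_zero, ← map_sub]
    apply hχ
    rw [sub_smul, hr', sub_self]
  have h4 : r = MonoidAlgebra.of ℤ Q s * (MonoidAlgebra.of ℤ Q s⁻¹ * r) := by
    rw [← mul_assoc, ← map_mul, mul_inv_cancel, map_one, one_mul]
  rw [h4, map_mul, map_mul, h3, hφ, hφ, hi, mul_comm]
  exact mul_le_mul' hr'' le_rfl

end Pool.Agent.MB73
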