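import Mathlib

/-!
Row H2. The valuation of `ψ q - 1` on a finitely generated abelian group, residue characteristic zero.
-/

namespace Pool.Agent.MB73

theorem h2_binom {F : Type*} [Field F] (v : Valuation F (WithZero (Multiplicative ℤ)))
    (hv : ∀ n : ℤ, n ≠ 0 → v (n : F) = 1) {z : F} (hz : v z < 1) (n : ℕ) :
    ∃ w : F, v w ≤ 1 ∧ (1 + z) ^ n - 1 = n * z + z ^ 2 * w := by
  have hn : ∀ m : ℕ, v (m : F) ≤ 1 := by
    intro m
    rcases Nat.eq_zero_or_pos m with h | h
    · rw [h, Nat.cast_zero, map_zero]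
      exact zero_le_one
    · have h1 := hv (m : ℤ) (by exact_mod_cast h.ne')
      rw [Int.cast_natCast] at h1
      exact h1.le
  induction n with
  | zero => exact ⟨0, by simp, by simp⟩
  | succ n ih =>
    obtain ⟨w, hw, h⟩ := ih
    refine ⟨n + w + z * w, ?_, ?_⟩
    · refine (v.map_add _ _).trans (max_le ((v.map_add _ _).trans (max_le (hn n) hw)) ?_)
      rw [map_mul]
      exact mul_le_one' hz.le hw
    · have h1 : (1 + z) ^ n = 1 + (n * z + z ^ 2 * w) := by rw [← h]; ring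
      rw [pow_succ, h1]
      push_cast
      ring

theorem h2_pow {F : Type*} [Field F] (v : Valuation F (WithZero (Multiplicative ℤ)))
    (hv : ∀ n : ℤ, n ≠ 0 → v (n : F) = 1) {z : F} (hz : v z < 1) {n : ℕ} (hn : n ≠ 0) :
    v ((1 + z) ^ n - 1) = v z := by
  obtain ⟨w, hw, h⟩ := h2_binom v hv hz n
  have h1 : (1 + z) ^ n - 1 = z * (n + z * w) := by rw [h]; ring
  have h2 : v (n : F) = 1 := by
    have h3 := hv (n : ℤ) (by exact_mod_cast hn)
    rwa [Int.cast_natCast] at h3
  have h3 : v (z * w) < v (n : F) := by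
    rw [h2, map_mul]
    exact lt_of_le_of_lt (mul_le_of_le_one_right' hw) hz
  rw [h1, map_mul, v.map_add_eq_of_lt_left h3, h2, mul_one]

/-- the elements near `1` -/
def h2_near {Q F : Type*} [CommGroup Q] [Field F] (v : Valuation F (WithZero (Multiplicative ℤ)))
    (ψ : Q →* F) (δ : WithZero (Multiplicative ℤ)) : Subgroup Q where
  carrier := {q | v (ψ q - 1) < 1 ∧ v (ψ q - 1) ≤ δ}
  one_mem' := by simp
  mul_mem' := by
    intro a b ha hb
    have h1 : v (ψ a) = 1 := by
      have h2 : ψ a = 1 + (ψ a - 1) := by ring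
      rw [h2]
      exact v.map_one_add_of_lt ha.1
    have h2 : ψ (a * b) - 1 = ψ a * (ψ b - 1) + (ψ a - 1) := by rw [map_mul]; ring
    constructor
    · rw [h2]
      refine lt_of_le_of_lt (v.map_add _ _) (max_lt ?_ ha.1)
      rw [map_mul, h1, one_mul]
      exact hb.1
    · rw [h2]
      refine (v.map_add _ _).trans (max_le ?_ ha.2)
      rw [map_mul, h1, one_mul]
      exact hb.2
  inv_mem' := by
    intro a ha
    have h1 : v (ψ a) = 1 := by
      have h2 : ψ a = 1 + (ψ a - 1) := by ring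
      rw [h2]
      exact v.map_one_add_of_lt ha.1
    have h0 : ψ a ≠ 0 := by
      intro h
      rw [h, map_zero] at h1
      exact zero_ne_one h1
    have h2 : v (ψ a⁻¹ - 1) = v (ψ a - 1) := by
      have h3 : ψ a⁻¹ - 1 = -((ψ a)⁻¹ * (ψ a - 1)) := by
        rw [map_inv]
        field_simp
        ring
      rw [h3, v.map_neg, map_mul, map_inv₀, h1, inv_one, one_mul]
    exact ⟨by rw [h2]; exact ha.1, by rw [h2]; exact ha.2⟩

theorem sep {Q F : Type*} [CommGroup Q] [Group.FG Q] [Field F]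
    (v : Valuation F (WithZero (Multiplicative ℤ))) (hv : ∀ n : ℤ, n ≠ 0 → v (n : F) = 1)
    (ψ : Q →* F) : ∃ δ : WithZero (Multiplicative ℤ), δ ≠ 0 ∧
      ∀ q : Q, v (ψ q - 1) ≤ δ → ψ q = 1 := by
  classical
  have hfin : Module.Finite ℤ (Additive Q) := by
    rw [Module.Finite.iff_addGroup_fg]
    infer_instance
  let A : WithZero (Multiplicative ℤ) → Submodule ℤ (Additive Q) := fun δ =>
    AddSubgroup.toIntSubmodule (Subgroup.toAddSubgroup (h2_near v ψ δ))
  have hA : ∀ (δ : WithZero (Multiplicative ℤ)) (q : Q), Additive.ofMul q ∈ A δ ↔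
      v (ψ q - 1) < 1 ∧ v (ψ q - 1) ≤ δ := fun δ q => Iff.rfl
  let c : WithZero (Multiplicative ℤ) := ((Multiplicative.ofAdd (-1 : ℤ) : Multiplicative ℤ) :
    WithZero (Multiplicative ℤ))
  have hc0 : c ≠ 0 := WithZero.coe_ne_zero
  have hc1 : c < 1 := by
    have h1 : (1 : WithZero (Multiplicative ℤ)) = ((1 : Multiplicative ℤ) :
      WithZero (Multiplicative ℤ)) := rfl
    rw [h1]
    exact WithZero.coe_lt_coe.2 (by decide)
  have hex : ∃ n : ℕ, ∃ δ : WithZero (Multiplicative ℤ), δ ≠ 0 ∧ δ < 1 ∧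
      Module.finrank ℤ (A δ) = n := ⟨_, c, hc0, hc1, rfl⟩
  obtain ⟨δ, hδ0, hδ1, hδ⟩ := Nat.find_spec hex
  refine ⟨δ, hδ0, fun q hq => ?_⟩
  by_contra hne
  have hv0 : v (ψ q - 1) ≠ 0 := by
    rw [Valuation.ne_zero_iff]
    exact sub_ne_zero.2 hne
  set ε : WithZero (Multiplicative ℤ) := v (ψ q - 1) with hε
  have hε1 : ε < 1 := lt_of_le_of_lt hq hδ1
  have hεc : ε * c < ε := by
    have h1 : ε * c < ε * 1 := mul_lt_mul_of_pos_left hc1 (zero_lt_iff.2 hv0)
    rwa [mul_one] at h1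
  have hmin : Module.finrank ℤ (A δ) ≤ Module.finrank ℤ (A (ε * c)) := by
    rw [hδ]
    exact Nat.find_min' hex ⟨ε * c, mul_ne_zero hv0 hc0, hεc.trans hε1, rfl⟩
  have hle : A (ε * c) ≤ A δ := by
    intro x hx
    exact ⟨hx.1, hx.2.trans (hεc.le.trans hq)⟩
  let f : A δ →ₗ[ℤ] (Additive Q ⧸ A (ε * c)) := (A (ε * c)).mkQ ∘ₗ (A δ).subtype
  have hrn := LinearMap.rank_range_add_rank_ker f
  have hker : Module.finrank ℤ (A (ε * c)) ≤ Module.finrank ℤ (LinearMap.ker f) := by
    let g : A (ε * c) →ₗ[ℤ] LinearMap.ker f := LinearMap.codRestrict _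
      (Submodule.inclusion hle) (by
        intro x
        rw [LinearMap.mem_ker]
        change (A (ε * c)).mkQ ((x : Additive Q)) = 0
        rw [Submodule.mkQ_apply, Submodule.Quotient.mk_eq_zero]
        exact x.2)
    refine LinearMap.finrank_le_finrank_of_injective (f := g) ?_
    intro x y hxy
    have h1 : (((g x : LinearMap.ker f) : A δ) : Additive Q)
        = (((g y : LinearMap.ker f) : A δ) : Additive Q) := by rw [hxy]
    exact Subtype.ext h1
  have hsum : Module.finrank ℤ (LinearMap.range f) + Module.finrank ℤ (LinearMap.ker f)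
      = Module.finrank ℤ (A δ) := by
    rw [← Module.finrank_eq_rank, ← Module.finrank_eq_rank, ← Module.finrank_eq_rank] at hrn
    exact_mod_cast hrn
  have hz : Module.finrank ℤ (LinearMap.range f) = 0 := by omega
  have hqA : Additive.ofMul q ∈ A δ := (hA δ q).2 ⟨hε1, hq⟩
  obtain ⟨m, hm, hmx⟩ := Module.finrank_eq_zero_iff.1 hz
    ⟨f ⟨Additive.ofMul q, hqA⟩, LinearMap.mem_range_self f _⟩
  have h1 : m • f ⟨Additive.ofMul q, hqA⟩ = 0 := congrArg Subtype.val hmx
  have h2 : m • Additive.ofMul q ∈ A (ε * c) := by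
    rw [← map_smul] at h1
    change (A (ε * c)).mkQ (m • Additive.ofMul q) = 0 at h1
    rwa [Submodule.mkQ_apply, Submodule.Quotient.mk_eq_zero] at h1
  have h3 : Additive.ofMul (q ^ m.natAbs) ∈ A (ε * c) := by
    rcases Int.natAbs_eq m with h | h
    · have h4 : m • Additive.ofMul q = Additive.ofMul (q ^ m.natAbs) := by
        conv_lhs => rw [h]
        rw [natCast_zsmul, ofMul_pow]
      rwa [h4] at h2
    · have h4 : -(m • Additive.ofMul q) = Additive.ofMul (q ^ m.natAbs) := by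
        conv_lhs => rw [h]
        rw [neg_smul, neg_neg, natCast_zsmul, ofMul_pow]
      rw [← h4]
      exact neg_mem h2
  have h4 := ((hA _ _).1 h3).2
  have h5 : ψ (q ^ m.natAbs) - 1 = (1 + (ψ q - 1)) ^ m.natAbs - 1 := by
    rw [map_pow]
    ring_nf
  rw [h5, h2_pow v hv hε1 (Int.natAbs_ne_zero.2 hm)] at h4
  exact absurd h4 (not_le.2 hεc)

end Pool.Agent.MB73
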