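import Mathlib

/-!
Row P1. A Noetherian module of infinite ℤ-rank has an element with prime annihilator that generates a
submodule of infinite ℤ-rank.
-/

namespace Pool.Agent.MB73

section
variable {R M : Type*} [CommRing R] [AddCommGroup M] [Module R M]

theorem p1_mono {S T : Submodule R M} (h : S ≤ T) (hT : Module.rank ℤ T < Cardinal.aleph0) :
    Module.rank ℤ S < Cardinal.aleph0 := by
  refine lt_of_le_of_lt ?_ hT
  exact LinearMap.rank_le_of_injective ((Submodule.inclusion h).restrictScalars ℤ)
    (Submodule.inclusion_injective h)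

/-- finite rank of kernel and image -/
theorem p1_ext {X Y : Type*} [AddCommGroup X] [AddCommGroup Y] (f : X →ₗ[ℤ] Y)
    (h1 : Module.rank ℤ (LinearMap.range f) < Cardinal.aleph0)
    (h2 : Module.rank ℤ (LinearMap.ker f) < Cardinal.aleph0) :
    Module.rank ℤ X < Cardinal.aleph0 := by
  have h := LinearMap.lift_rank_range_add_rank_ker f
  have h3 : Cardinal.lift (Module.rank ℤ X) < Cardinal.aleph0 := by
    rw [← h]
    exact Cardinal.add_lt_aleph0 (Cardinal.lift_lt_aleph0.2 h1) (Cardinal.lift_lt_aleph0.2 h2)
  exact Cardinal.lift_lt_aleph0.1 h3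

theorem p1_sup {S T : Submodule R M} (hS : Module.rank ℤ S < Cardinal.aleph0)
    (hT : Module.rank ℤ T < Cardinal.aleph0) :
    Module.rank ℤ (S ⊔ T : Submodule R M) < Cardinal.aleph0 := by
  let f : (S ⊔ T : Submodule R M) →ₗ[ℤ] (M ⧸ T) :=
    (T.mkQ ∘ₗ (S ⊔ T : Submodule R M).subtype).restrictScalars ℤ
  refine p1_ext f ?_ ?_
  · let g : S →ₗ[ℤ] LinearMap.range f :=
      LinearMap.codRestrict _ ((T.mkQ ∘ₗ S.subtype).restrictScalars ℤ) (by
        intro x
        exact ⟨⟨x, Submodule.mem_sup_left x.2⟩, rfl⟩)
    have hg : Function.Surjective g := by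
      rintro ⟨y, ⟨x, hx⟩, rfl⟩
      obtain ⟨s, hs, t, ht, hst⟩ := Submodule.mem_sup.1 hx
      refine ⟨⟨s, hs⟩, Subtype.ext ?_⟩
      change T.mkQ s = T.mkQ x
      rw [← hst, map_add, (Submodule.Quotient.mk_eq_zero T).2 ht |> fun h => (show T.mkQ t = 0 from h),
        add_zero]
    exact lt_of_le_of_lt (LinearMap.lift_rank_le_of_surjective g hg |> fun h => by
      simpa using h) hS
  · let g : LinearMap.ker f →ₗ[ℤ] T :=
      LinearMap.codRestrict (T.restrictScalars ℤ)
        (((S ⊔ T : Submodule R M).subtype.restrictScalars ℤ) ∘ₗ (LinearMap.ker f).subtype) (by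
        intro x
        have h1 : T.mkQ ((x : (S ⊔ T : Submodule R M)) : M) = 0 := x.2
        rwa [Submodule.mkQ_apply, Submodule.Quotient.mk_eq_zero] at h1)
    refine lt_of_le_of_lt (LinearMap.rank_le_of_injective g ?_) hT
    intro x y hxy
    have h1 : ((g x : T) : M) = ((g y : T) : M) := by rw [hxy]
    exact Subtype.ext (Subtype.ext h1)

theorem p1_span (s : Finset M)
    (h : ∀ m ∈ s, Module.rank ℤ (Submodule.span R {m} : Submodule R M) < Cardinal.aleph0) :
    Module.rank ℤ (Submodule.span R (s : Set M) : Submodule R M) < Cardinal.aleph0 := by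
  classical
  induction s using Finset.induction_on with
  | empty =>
    rw [Finset.coe_empty, Submodule.span_empty]
    have h1 : Module.rank ℤ (⊥ : Submodule R M) = 0 := rank_subsingleton' ℤ _
    rw [h1]
    exact Cardinal.aleph0_pos
  | insert a s _ ih =>
    rw [Finset.coe_insert, Submodule.span_insert]
    exact p1_sup (h a (Finset.mem_insert_self a s))
      (ih fun m hm => h m (Finset.mem_insert_of_mem hm))

end

theorem exists_prime {R M : Type*} [CommRing R] [IsNoetherianRing R] [AddCommGroup M] [Module R M]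
    [IsNoetherian R M] (hM : ¬ Module.rank ℤ M < Cardinal.aleph0) :
    ∃ m : M, Ideal.IsPrime (LinearMap.ker (LinearMap.toSpanSingleton R M m) : Ideal R) ∧
      ¬ Module.rank ℤ (Submodule.span R {m} : Submodule R M) < Cardinal.aleph0 := by
  classical
  have hex : ∃ m : M, ¬ Module.rank ℤ (Submodule.span R {m} : Submodule R M) < Cardinal.aleph0 := by
    by_contra hcon
    push Not at hcon
    obtain ⟨s, hs⟩ := (IsNoetherian.noetherian (⊤ : Submodule R M))
    have h1 := p1_span (R := R) s fun m _ => hcon m
    rw [hs] at h1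
    apply hM
    have h2 : Module.rank ℤ (⊤ : Submodule R M) = Module.rank ℤ M :=
      LinearEquiv.rank_eq ((Submodule.topEquiv (R := R) (M := M)).restrictScalars ℤ)
    rwa [h2] at h1
  obtain ⟨m₀, hm₀⟩ := hex
  let A : Set (Ideal R) := {I | ∃ m : M, I = LinearMap.ker (LinearMap.toSpanSingleton R M m) ∧
    ¬ Module.rank ℤ (Submodule.span R {m} : Submodule R M) < Cardinal.aleph0}
  obtain ⟨I, ⟨m, rfl, hm⟩, hmax⟩ := (set_has_maximal_iff_noetherian (R := R) (M := R)).2
    inferInstance A ⟨_, m₀, rfl, hm₀⟩
  refine ⟨m, ?_, hm⟩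
  have hmem : ∀ (r : R) (x : M), r ∈ LinearMap.ker (LinearMap.toSpanSingleton R M x) ↔
      r • x = 0 := by
    intro r x
    rw [LinearMap.mem_ker, LinearMap.toSpanSingleton_apply]
  -- larger annihilators
  have hlt : ∀ x : M, (∀ r : R, r • m = 0 → r • x = 0) → (∃ r : R, r • x = 0 ∧ r • m ≠ 0) →
      Module.rank ℤ (Submodule.span R {x} : Submodule R M) < Cardinal.aleph0 := by
    intro x h1 h2
    by_contra hcon
    refine hmax _ ⟨x, rfl, hcon⟩ (lt_of_le_of_ne ?_ ?_)
    · intro r hr
      rw [hmem] at hr ⊢
      exact h1 r hr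
    · intro he
      obtain ⟨r, hr1, hr2⟩ := h2
      have h3 : r ∈ LinearMap.ker (LinearMap.toSpanSingleton R M x) := (hmem r x).2 hr1
      rw [← he, hmem] at h3
      exact hr2 h3
  constructor
  · intro htop
    have h1 : (1 : R) ∈ LinearMap.ker (LinearMap.toSpanSingleton R M m) := by
      rw [htop]
      exact Submodule.mem_top
    rw [hmem, one_smul] at h1
    apply hm
    rw [h1, Submodule.span_zero_singleton]
    have h2 : Module.rank ℤ (⊥ : Submodule R M) = 0 := rank_subsingleton' ℤ _
    rw [h2]
    exact Cardinal.aleph0_pos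
  · intro a b hab
    by_contra hcon
    push Not at hcon
    rw [hmem, hmem] at hcon
    rw [hmem] at hab
    obtain ⟨ha, hb⟩ := hcon
    apply hm
    -- multiplication by `a` on `R ∙ m`
    let g : (Submodule.span R {m} : Submodule R M) →ₗ[R] M :=
      a • (Submodule.span R {m} : Submodule R M).subtype
    refine p1_ext (g.restrictScalars ℤ) ?_ ?_
    · have h1 : Module.rank ℤ (Submodule.span R {a • m} : Submodule R M) < Cardinal.aleph0 := by
        refine hlt (a • m) (fun r hr => ?_) ⟨b, ?_, hb⟩
        · rw [smul_comm, hr, smul_zero]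
        · rw [← mul_smul, mul_comm]
          exact hab
      refine p1_mono (S := LinearMap.range g) ?_ h1
      rintro _ ⟨⟨x, hx⟩, rfl⟩
      obtain ⟨r, rfl⟩ := Submodule.mem_span_singleton.1 hx
      refine Submodule.mem_span_singleton.2 ⟨r, ?_⟩
      change r • a • m = a • r • m
      rw [smul_comm]
    · have h2 : Module.rank ℤ (Submodule.map (Submodule.span R {m} : Submodule R M).subtype
          (LinearMap.ker g)) < Cardinal.aleph0 := by
        obtain ⟨s, hs⟩ := IsNoetherian.noetherian
          (Submodule.map (Submodule.span R {m} : Submodule R M).subtype (LinearMap.ker g))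
        rw [← hs]
        refine p1_span s fun x hx => ?_
        have hx' : x ∈ Submodule.map (Submodule.span R {m} : Submodule R M).subtype
            (LinearMap.ker g) := by
          rw [← hs]
          exact Submodule.subset_span hx
        obtain ⟨⟨y, hy⟩, hyk, rfl⟩ := hx'
        obtain ⟨c, rfl⟩ := Submodule.mem_span_singleton.1 hy
        have hac : a • c • m = 0 := hyk
        change Module.rank ℤ (Submodule.span R {c • m} : Submodule R M) < Cardinal.aleph0
        refine hlt (c • m) (fun r hr => ?_) ⟨a, hac, ha⟩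
        rw [smul_comm, hr, smul_zero]
      let e : LinearMap.ker g →ₗ[ℤ] (Submodule.map (Submodule.span R {m} : Submodule R M).subtype
          (LinearMap.ker g)) :=
        LinearMap.codRestrict ((Submodule.map (Submodule.span R {m} : Submodule R M).subtype
          (LinearMap.ker g)).restrictScalars ℤ)
          (((Submodule.span R {m} : Submodule R M).subtype ∘ₗ (LinearMap.ker g).subtype).restrictScalars ℤ)
          (fun x => ⟨x, x.2, rfl⟩)
      refine lt_of_le_of_lt (LinearMap.rank_le_of_injective (M := LinearMap.ker g) e ?_) h2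
      intro x y hxy
      have h1 := congrArg Subtype.val hxy
      exact Subtype.ext (Subtype.ext h1)

end Pool.Agent.MB73
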