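import Mathlib

/-!
Row P2. A domain of infinite ℤ-rank which is generated by the image of a finitely generated group of units
has characteristic zero, and one of these units is transcendental.
-/

namespace Pool.Agent.MB73

theorem p2_charZero {D : Type} [CommRing D] [IsDomain D]
    (hD : ¬ Module.rank ℤ D < Cardinal.aleph0) : CharZero D := by
  obtain ⟨p, hp⟩ := CharP.exists D
  rcases Nat.eq_zero_or_pos p with h | h
  · subst h
    exact CharP.charP_to_charZero D
  · exfalso
    apply hD
    have h1 : Module.rank ℤ D = 0 := by
      rw [rank_eq_zero_iff]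
      intro x
      refine ⟨(p : ℤ), by exact_mod_cast h.ne', ?_⟩
      rw [zsmul_eq_mul, Int.cast_natCast, CharP.cast_eq_zero D p, zero_mul]
    rw [h1]
    exact Cardinal.aleph0_pos

theorem exists_transcendental {Q D : Type} [CommGroup Q] [Group.FG Q] [CommRing D] [IsDomain D]
    (ρ : MonoidAlgebra ℤ Q →+* D) (hρ : Function.Surjective ρ)
    (hD : ¬ Module.rank ℤ D < Cardinal.aleph0) :
    CharZero D ∧ ∃ q : Q, Transcendental ℤ (ρ (MonoidAlgebra.of ℤ Q q)) := by
  have hc : CharZero D := p2_charZero hD
  refine ⟨hc, ?_⟩
  classical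
  by_contra hcon
  have halg : ∀ q : Q, IsAlgebraic ℤ (ρ (MonoidAlgebra.of ℤ Q q)) := by
    intro q
    by_contra hq
    exact hcon ⟨q, hq⟩
  let F := FractionRing D
  have hcF : CharZero F := charZero_of_injective_algebraMap (IsFractionRing.injective D F)
  let φ : Q →* F := (algebraMap D F).toMonoidHom.comp (ρ.toMonoidHom.comp (MonoidAlgebra.of ℤ Q))
  have hφ : ∀ q, φ q = algebraMap D F (ρ (MonoidAlgebra.of ℤ Q q)) := fun q => rfl
  obtain ⟨E, hE⟩ := Group.fg_def.1 (inferInstance : Group.FG Q)
  have hint : ∀ q : Q, IsIntegral ℚ (φ q) := by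
    intro q
    obtain ⟨p, hp0, hp⟩ := halg q
    have h2 : IsAlgebraic ℚ (φ q) := by
      refine ⟨p.map (Int.castRingHom ℚ), ?_, ?_⟩
      · rw [Ne, Polynomial.map_eq_zero_iff (RingHom.injective_int _)]
        exact hp0
      · have h3 : (algebraMap ℚ F).comp (Int.castRingHom ℚ)
            = (algebraMap D F).comp (algebraMap ℤ D) := RingHom.ext_int _ _
        rw [Polynomial.aeval_def, Polynomial.eval₂_map, h3, hφ, ← Polynomial.hom_eval₂,
          ← Polynomial.aeval_def, hp, map_zero]
    exact h2.isIntegral
  let K : IntermediateField ℚ F := IntermediateField.adjoin ℚ ((E.image φ : Finset F) : Set F)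
  have hK : FiniteDimensional ℚ K := by
    refine IntermediateField.finiteDimensional_adjoin ?_
    intro x hx
    rw [Finset.mem_coe, Finset.mem_image] at hx
    obtain ⟨q, _, rfl⟩ := hx
    exact hint q
  have hQ : ∀ q : Q, φ q ∈ K := by
    intro q
    let H : Subgroup Q :=
      { carrier := {q | φ q ∈ K}
        one_mem' := by
          change φ 1 ∈ K
          rw [map_one]
          exact one_mem K
        mul_mem' := by
          intro a b ha hb
          change φ (a * b) ∈ K
          rw [map_mul]
          exact mul_mem ha hb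
        inv_mem' := by
          intro a ha
          change φ a⁻¹ ∈ K
          rw [map_inv]
          exact inv_mem ha }
    have h1 : Subgroup.closure (E : Set Q) ≤ H := by
      rw [Subgroup.closure_le]
      intro x hx
      refine IntermediateField.subset_adjoin ℚ _ ?_
      rw [Finset.mem_coe, Finset.mem_image]
      exact ⟨x, hx, rfl⟩
    rw [hE] at h1
    exact h1 (Subgroup.mem_top q)
  have hDK : ∀ d : D, algebraMap D F d ∈ K := by
    intro d
    obtain ⟨x, rfl⟩ := hρ d
    induction x using MonoidAlgebra.induction_on with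
    | of q => exact hQ q
    | add x y hx hy =>
      rw [map_add, map_add]
      exact add_mem hx hy
    | smul r x hx =>
      rw [zsmul_eq_mul, map_mul, map_mul, map_intCast, map_intCast]
      exact mul_mem (intCast_mem K r) hx
  let g : D →ₗ[ℤ] K :=
    { toFun := fun d => ⟨algebraMap D F d, hDK d⟩
      map_add' := fun x y => Subtype.ext (map_add _ x y)
      map_smul' := fun n x => Subtype.ext (by
        change algebraMap D F (n • x) = n • algebraMap D F x
        rw [map_zsmul]) }
  have hg : Function.Injective g := by
    intro x y hxy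
    exact IsFractionRing.injective D F (congrArg Subtype.val hxy)
  apply hD
  calc Module.rank ℤ D ≤ Module.rank ℤ K := LinearMap.rank_le_of_injective g hg
    _ = Module.rank ℚ K := (IsFractionRing.rank_right_eq ℤ ℚ K).symm
    _ < Cardinal.aleph0 := Module.rank_lt_aleph0 ℚ K

end Pool.Agent.MB73
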