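import Mathlib

/-!
Row P3 (120-180 lines). PROOF. (a) Zorn: there is an intermediate field `k` of `F/ℚ`, maximal such that `x` is transcendental over `k`
(or: extend `{x}` to a transcendence basis `{x} ∪ Y` of `F/ℚ` and take `k = ℚ(Y)`). Then `F` is algebraic over `k(x)`, and `F` is generated
by the finite set `S` over it, so `F` is finite over `k(x)`.
(b) `A = Polynomial k` acts on `F` through `X ↦ x` (injective), `K = RatFunc k` (or the subfield `k(x)` of `F`, with `A = k[x] ⊂ F` as a subring) is its fraction field;
`B = integralClosure A F` is a Dedekind domain with fraction field `F` (`integralClosure.isDedekindDomain`, char 0 so separable).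
(c) `x` is in `B` and not a unit of `B` (`A` is integrally closed and `1/x ∉ A`), so there is a maximal ideal `𝔓 ∋ x` of `B`, `𝔓 ≠ 0`: a `HeightOneSpectrum`;
`v₀ = 𝔓.valuation F` has `v₀ x < 1` and `v₀ = 1` on the units of `B`, in particular on `k ∖ 0` and on the nonzero integers.
(d) The statement wants `1 < v x`: do (a)-(c) for `x⁻¹` (also transcendental).
-/

namespace Pool.Agent.MB73

open Polynomial in
/-- the valuation of a finite extension of `k(X)` at a place above `X = 0` -/
theorem p3_core {k K F : Type} [Field k] [CharZero k] [Field K] [Field F] [CharZero F]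
    [Algebra k[X] F] [Algebra k[X] K] [IsFractionRing k[X] K] [Algebra K F]
    [IsScalarTower k[X] K F] [FiniteDimensional K F] :
    ∃ v : Valuation F (WithZero (Multiplicative ℤ)),
      (∀ c : k, c ≠ 0 → v (algebraMap k[X] F (C c)) = 1) ∧ v (algebraMap k[X] F X) < 1 := by
  have hinj : Function.Injective (algebraMap k[X] F) := by
    rw [IsScalarTower.algebraMap_eq k[X] K F]
    exact (algebraMap K F).injective.comp (IsFractionRing.injective k[X] K)
  have hcK : CharZero K := ⟨fun m n h => by
    have h1 := congrArg (algebraMap K F) h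
    rw [map_natCast, map_natCast] at h1
    exact Nat.cast_injective h1⟩
  have hsep : Algebra.IsSeparable K F := inferInstance
  have hded : IsDedekindDomain (integralClosure k[X] F) :=
    integralClosure.isDedekindDomain k[X] K F
  have hfr : IsFractionRing (integralClosure k[X] F) F :=
    integralClosure.isFractionRing_of_finite_extension K F
  let y : integralClosure k[X] F := algebraMap k[X] (integralClosure k[X] F) X
  have hyF : (y : F) = algebraMap k[X] F X := rfl
  have hX0 : algebraMap k[X] F X ≠ 0 := by
    intro h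
    rw [← map_zero (algebraMap k[X] F)] at h
    exact X_ne_zero (hinj h)
  have hy0 : y ≠ 0 := by
    intro h
    apply hX0
    rw [← hyF, h]
    rfl
  have hnu : ¬ IsUnit y := by
    intro hu
    obtain ⟨z, hz⟩ := hu.exists_right_inv
    have hz1 : algebraMap k[X] F X * (z : F) = 1 := by
      have := congrArg (fun w : integralClosure k[X] F => (w : F)) hz
      exact this
    have hz2 : (z : F) = algebraMap K F (algebraMap k[X] K X)⁻¹ := by
      rw [map_inv₀, ← IsScalarTower.algebraMap_apply]
      exact eq_inv_of_mul_eq_one_right hz1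
    have hint : IsIntegral k[X] (z : F) := z.2
    rw [hz2] at hint
    have hint2 : IsIntegral k[X] ((algebraMap k[X] K X)⁻¹ : K) :=
      (isIntegral_algebraMap_iff (algebraMap K F).injective).1 hint
    obtain ⟨p, hp⟩ := IsIntegrallyClosed.isIntegral_iff.1 hint2
    have hXK : algebraMap k[X] K X ≠ 0 := by
      intro h
      rw [← map_zero (algebraMap k[X] K)] at h
      exact X_ne_zero (IsFractionRing.injective k[X] K h)
    have hpX : algebraMap k[X] K (X * p) = 1 := by
      rw [map_mul, hp, mul_inv_cancel₀ hXK]
    have hpX1 : X * p = 1 := by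
      apply IsFractionRing.injective k[X] K
      rw [hpX, map_one]
    exact not_isUnit_X (IsUnit.of_mul_eq_one p hpX1)
  obtain ⟨P, hPmax, hyP⟩ := exists_max_ideal_of_mem_nonunits (mem_nonunits_iff.2 hnu)
  have hPbot : P ≠ ⊥ := by
    intro h
    rw [h, Ideal.mem_bot] at hyP
    exact hy0 hyP
  let w : IsDedekindDomain.HeightOneSpectrum (integralClosure k[X] F) :=
    ⟨P, hPmax.isPrime, hPbot⟩
  refine ⟨w.valuation F, ?_, ?_⟩
  · intro c hc
    have h1 : w.valuation F (algebraMap k[X] F (C c)) ≤ 1 :=
      w.valuation_le_one (algebraMap k[X] (integralClosure k[X] F) (C c))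
    have h2 : w.valuation F (algebraMap k[X] F (C c⁻¹)) ≤ 1 :=
      w.valuation_le_one (algebraMap k[X] (integralClosure k[X] F) (C c⁻¹))
    have h3 : w.valuation F (algebraMap k[X] F (C c)) * w.valuation F (algebraMap k[X] F (C c⁻¹))
        = 1 := by
      rw [← map_mul, ← map_mul, ← C_mul, mul_inv_cancel₀ hc, C_1, map_one, map_one]
    refine le_antisymm h1 ?_
    rw [← h3]
    calc w.valuation F (algebraMap k[X] F (C c)) * w.valuation F (algebraMap k[X] F (C c⁻¹))
        ≤ w.valuation F (algebraMap k[X] F (C c)) * 1 := mul_le_mul_right h2 _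
      _ = w.valuation F (algebraMap k[X] F (C c)) := mul_one _
  · exact (w.valuation_lt_one_iff_mem y).2 hyP

open Polynomial in
/-- if `F` is finitely generated over `ℚ`, algebraic over `K`, it is finite over `K` -/
theorem p3_finite {K F : Type} [Field K] [Field F] [CharZero F] [Algebra K F]
    [Algebra.IsAlgebraic K F] (S : Set F) (hS : S.Finite)
    (hF : IntermediateField.adjoin ℚ S = ⊤) : FiniteDimensional K F := by
  have hfin : Finite S := hS
  have h1 : FiniteDimensional K (IntermediateField.adjoin K S) :=
    IntermediateField.finiteDimensional_adjoin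
      (fun x _ => (Algebra.IsAlgebraic.isAlgebraic (R := K) x).isIntegral)
  let Q : IntermediateField ℚ F :=
    { (IntermediateField.adjoin K S).toSubfield with
      algebraMap_mem' := by
        intro q
        have : algebraMap ℚ F q = ((q : ℚ) : F) := by simp
        rw [this]
        exact SubfieldClass.ratCast_mem (IntermediateField.adjoin K S).toSubfield q }
  have h2 : (⊤ : IntermediateField ℚ F) ≤ Q := by
    rw [← hF, IntermediateField.adjoin_le_iff]
    intro s hs
    exact IntermediateField.subset_adjoin K S hs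
  have h3 : IntermediateField.adjoin K S = ⊤ := by
    refine top_le_iff.1 fun z _ => ?_
    exact h2 (show z ∈ (⊤ : IntermediateField ℚ F) from IntermediateField.mem_top)
  rw [h3] at h1
  exact Module.Finite.equiv (IntermediateField.topEquiv (F := K) (E := F)).toLinearEquiv

open Polynomial in
/-- algebraicity passes to a field `K` whose image contains the subfield `L` -/
theorem p3_alg {K F : Type} [Field K] [Field F] [CharZero F] [Algebra K F]
    (L : IntermediateField ℚ F) [Algebra.IsAlgebraic L F]
    (h : ∀ z ∈ L, z ∈ (algebraMap K F).fieldRange) : Algebra.IsAlgebraic K F := by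
  have hx : ∀ z : L, ∃ a : K, algebraMap K F a = z := fun z => h z z.2
  choose φ hφ using hx
  have hinj := (algebraMap K F).injective
  let ψ : L →+* K :=
    { toFun := φ
      map_one' := hinj (by rw [hφ, map_one]; rfl)
      map_mul' := fun a b => hinj (by rw [hφ, map_mul, hφ, hφ]; rfl)
      map_zero' := hinj (by rw [hφ, map_zero]; rfl)
      map_add' := fun a b => hinj (by rw [hφ, map_add, hφ, hφ]; rfl) }
  have hcomp : (algebraMap K F).comp ψ = algebraMap L F := RingHom.ext fun z => hφ z
  refine ⟨fun z => ?_⟩
  obtain ⟨p, hp, hpz⟩ := Algebra.IsAlgebraic.isAlgebraic (R := L) z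
  refine ⟨p.map ψ, ?_, ?_⟩
  · rw [Ne, Polynomial.map_eq_zero]
    exact hp
  · rw [aeval_def, eval₂_map, hcomp, ← aeval_def]
    exact hpz

open Polynomial in
theorem p3_main {F : Type} [Field F] [CharZero F] (S : Set F) (hS : S.Finite)
    (hF : IntermediateField.adjoin ℚ S = ⊤) (y : F) (hy : Transcendental ℚ y) :
    ∃ v : Valuation F (WithZero (Multiplicative ℤ)),
      (∀ n : ℤ, n ≠ 0 → v (n : F) = 1) ∧ v y < 1 := by
  have hy1 : AlgebraicIndepOn ℚ id ({y} : Set F) := by
    exact (algebraicIndependent_singleton_iff (⟨y, rfl⟩ : ({y} : Set F))).2 hy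
  obtain ⟨t, hyt, ht⟩ := exists_isTranscendenceBasis_superset hy1
  have hyt' : y ∈ t := hyt (Set.mem_singleton y)
  let s : Set t := {i | i ≠ ⟨y, hyt'⟩}
  let k : IntermediateField ℚ F := IntermediateField.adjoin ℚ (((↑) : t → F) '' s)
  have htr : Transcendental k y := by
    have h1 := ht.1.transcendental_adjoin (s := s) (i := ⟨y, hyt'⟩) (fun h => h rfl)
    exact IntermediateField.transcendental_adjoin_iff.2 h1
  have halg := ht.isAlgebraic_field
  let aA : Algebra k[X] F := (aeval (R := k) y).toRingHom.toAlgebra
  have hmap : ∀ p : k[X], algebraMap k[X] F p = aeval y p := fun p => rfl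
  have hinj : Function.Injective (algebraMap k[X] F) := transcendental_iff_injective.1 htr
  have hfs : FaithfulSMul k[X] F := (faithfulSMul_iff_algebraMap_injective k[X] F).2 hinj
  let aK : Algebra (FractionRing k[X]) F := FractionRing.liftAlgebra k[X] F
  have hst : IsScalarTower k[X] (FractionRing k[X]) F :=
    FractionRing.isScalarTower_liftAlgebra k[X] F
  have hkK : ∀ c : k, (c : F) ∈ (algebraMap (FractionRing k[X]) F).fieldRange := by
    intro c
    refine ⟨algebraMap k[X] (FractionRing k[X]) (C c), ?_⟩
    rw [← IsScalarTower.algebraMap_apply, hmap, aeval_C]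
    rfl
  have hyK : y ∈ (algebraMap (FractionRing k[X]) F).fieldRange := by
    refine ⟨algebraMap k[X] (FractionRing k[X]) X, ?_⟩
    rw [← IsScalarTower.algebraMap_apply, hmap, aeval_X]
  let Q : IntermediateField ℚ F :=
    { (algebraMap (FractionRing k[X]) F).fieldRange with
      algebraMap_mem' := by
        intro q
        have : algebraMap ℚ F q = ((q : ℚ) : F) := by simp
        rw [this]
        exact SubfieldClass.ratCast_mem (algebraMap (FractionRing k[X]) F).fieldRange q }
  have hLQ : IntermediateField.adjoin ℚ (Set.range ((↑) : t → F)) ≤ Q := by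
    rw [IntermediateField.adjoin_le_iff]
    rintro _ ⟨i, rfl⟩
    by_cases hi : i = ⟨y, hyt'⟩
    · rw [hi]
      exact hyK
    · exact hkK ⟨i, IntermediateField.subset_adjoin ℚ _ ⟨i, hi, rfl⟩⟩
  have halgK : Algebra.IsAlgebraic (FractionRing k[X]) F :=
    p3_alg (IntermediateField.adjoin ℚ (Set.range ((↑) : t → F))) (fun z hz => hLQ hz)
  have hfd : FiniteDimensional (FractionRing k[X]) F := p3_finite S hS hF
  obtain ⟨v, hv1, hv2⟩ := p3_core (k := k) (K := FractionRing k[X]) (F := F)
  refine ⟨v, fun n hn => ?_, ?_⟩
  · have h1 := hv1 (n : k) (Int.cast_ne_zero.2 hn)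
    have h2 : algebraMap k[X] F (C (n : k)) = (n : F) := by
      rw [hmap, aeval_C, map_intCast]
    rw [← h2]
    exact h1
  · have h2 : algebraMap k[X] F X = y := by rw [hmap, aeval_X]
    rw [h2] at hv2
    exact hv2

theorem exists_valuation {F : Type} [Field F] [CharZero F] (S : Set F) (hS : S.Finite)
    (hF : IntermediateField.adjoin ℚ S = ⊤) (x : F) (hx : Transcendental ℚ x) :
    ∃ v : Valuation F (WithZero (Multiplicative ℤ)),
      (∀ n : ℤ, n ≠ 0 → v (n : F) = 1) ∧ 1 < v x := by
  have hx0 : x ≠ 0 := by
    intro h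
    rw [h] at hx
    exact hx isAlgebraic_zero
  have hinv : Transcendental ℚ x⁻¹ := by
    intro h
    apply hx
    have := h.inv
    rwa [inv_inv] at this
  obtain ⟨v, hv1, hv2⟩ := p3_main S hS hF x⁻¹ hinv
  refine ⟨v, hv1, ?_⟩
  rw [map_inv₀] at hv2
  have hpos : 0 < v x := by
    rw [zero_lt_iff]
    exact (Valuation.ne_zero_iff v).2 hx0
  exact (inv_lt_one₀ hpos).1 hv2

end Pool.Agent.MB73
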