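import Mathlib

/-!
The crossed homomorphism `β g = fun γ => [σ γ * g * (σ (γ * π g))⁻¹]` with values in the functions from `Γ` to the
abelianization of `π.ker` (the proofs are by helper56).
-/

namespace Pool.Agent.MB73

/-- The regular shift of `Γ` on functions. -/
def x1_shift (X : Type) [AddCommGroup X] (Γ : Type) [Group Γ] :
    Γ →* Module.End ℤ (Γ → X) where
  toFun q :=
    { toFun := fun φ q' => φ (q' * q)
      map_add' := fun _ _ => rfl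
      map_smul' := fun _ _ => rfl }
  map_one' := by
    ext φ q'
    simp
  map_mul' p q := by
    ext φ q'
    simp [mul_assoc]

theorem x1_ker {G Γ : Type} [Group G] [Group Γ] (π : G →* Γ) (σ : Γ → G)
    (hσ : ∀ q, π (σ q) = q) (q : Γ) (g : G) : σ q * g * (σ (q * π g))⁻¹ ∈ π.ker := by
  rw [MonoidHom.mem_ker, map_mul, map_mul, map_inv, hσ, hσ]
  exact mul_inv_cancel _

/-- The crossed homomorphism. -/
def x1_beta {G Γ : Type} [Group G] [Group Γ] (π : G →* Γ) (σ : Γ → G)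
    (hσ : ∀ q, π (σ q) = q) (g : G) (q : Γ) : Additive (Abelianization π.ker) :=
  Additive.ofMul (Abelianization.of ⟨σ q * g * (σ (q * π g))⁻¹, x1_ker π σ hσ q g⟩)

theorem x1_beta_mul {G Γ : Type} [Group G] [Group Γ] (π : G →* Γ) (σ : Γ → G)
    (hσ : ∀ q, π (σ q) = q) (g h : G) (q : Γ) :
    x1_beta π σ hσ (g * h) q = x1_beta π σ hσ g q + x1_beta π σ hσ h (q * π g) := by
  unfold x1_beta
  rw [← ofMul_mul, ← map_mul]
  congr 2
  apply Subtype.ext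
  show σ q * (g * h) * (σ (q * π (g * h)))⁻¹ =
    σ q * g * (σ (q * π g))⁻¹ * (σ (q * π g) * h * (σ (q * π g * π h))⁻¹)
  rw [map_mul, ← mul_assoc q]
  group

theorem x1_inj {G Γ : Type} [Group G] [Group Γ] (π : G →* Γ) (σ : Γ → G)
    (hσ : ∀ q, π (σ q) = q) {a b : G} (ha : π a = 1) (hb : π b = 1)
    (h : x1_beta π σ hσ a 1 = x1_beta π σ hσ b 1) : a⁻¹ * b ∈ ⁅π.ker, π.ker⁆ := by
  unfold x1_beta at h
  have h1 := Additive.ofMul.injective h
  have h2 := QuotientGroup.eq.mp h1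
  have h3 := Subgroup.mem_map_of_mem π.ker.subtype h2
  rw [Subgroup.map_subtype_commutator] at h3
  have h4 : (π.ker.subtype ((⟨σ 1 * a * (σ (1 * π a))⁻¹, x1_ker π σ hσ 1 a⟩ : π.ker)⁻¹ *
      ⟨σ 1 * b * (σ (1 * π b))⁻¹, x1_ker π σ hσ 1 b⟩)) = σ 1 * (a⁻¹ * b) * (σ 1)⁻¹ := by
    show (σ 1 * a * (σ (1 * π a))⁻¹)⁻¹ * (σ 1 * b * (σ (1 * π b))⁻¹) = _
    rw [ha, hb, mul_one]
    group
  rw [h4] at h3
  have h5 := (inferInstance : (⁅π.ker, π.ker⁆ : Subgroup G).Normal).conj_mem _ h3 (σ 1)⁻¹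
  have h6 : (σ 1)⁻¹ * (σ 1 * (a⁻¹ * b) * (σ 1)⁻¹) * (σ 1)⁻¹⁻¹ = a⁻¹ * b := by group
  rwa [h6] at h5

theorem exists_crossed {G Γ : Type} [Group G] [Group Γ] (π : G →* Γ)
    (hπ : Function.Surjective π) (A : Subgroup G) (hA : ∀ a ∈ A, π a = 1)
    (hAC : A ⊓ ⁅π.ker, π.ker⁆ = ⊥) :
    ∃ (M : Type) (_ : AddCommGroup M) (ρ : Γ →* Module.End ℤ M) (β : G → M),
      (∀ g h, β (g * h) = β g + ρ (π g) (β h)) ∧
      ∀ a ∈ A, ∀ b ∈ A, β a = β b → a = b := by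
  let σ : Γ → G := Function.surjInv hπ
  have hσ : ∀ q, π (σ q) = q := Function.surjInv_eq hπ
  refine ⟨Γ → Additive (Abelianization π.ker), inferInstance,
    x1_shift (Additive (Abelianization π.ker)) Γ, x1_beta π σ hσ, ?_, ?_⟩
  · intro g h
    funext q
    exact x1_beta_mul π σ hσ g h q
  · intro a ha b hb hab
    have h1 := x1_inj π σ hσ (hA a ha) (hA b hb) (congrFun hab 1)
    have h2 : a⁻¹ * b ∈ A ⊓ ⁅π.ker, π.ker⁆ :=
      Subgroup.mem_inf.mpr ⟨A.mul_mem (A.inv_mem ha) hb, h1⟩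
    rw [hAC, Subgroup.mem_bot] at h2
    exact (inv_mul_eq_one.mp h2)

end Pool.Agent.MB73
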