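import Pool.Agent.MB73.H1
import Pool.Agent.MB73.H2
import Pool.Agent.MB73.P1
import Pool.Agent.MB73.P2
import Pool.Agent.MB73.P3
import Pool.Agent.MB73.X1
import Pool.Agent.MB73.Core

/-!
Assembly.
-/

open Pointwise

namespace Pool.Agent.MB73

lemma transcendental_rat {F : Type*} [Field F] [CharZero F] (x : F) (h : Transcendental ℤ x) :
    Transcendental ℚ x := by
  intro h4
  exact h ((IsFractionRing.isAlgebraic_iff ℤ ℚ F).mpr h4)

lemma transcendental_inst {F : Type*} [CommRing F] (i₁ i₂ : Algebra ℤ F) (x : F)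
    (h : @Transcendental ℤ F _ _ i₁ x) : @Transcendental ℤ F _ _ i₂ x := by
  have : i₁ = i₂ := Subsingleton.elim _ _
  subst this
  exact h

theorem main {G Γ Q : Type} [Group G] [DecidableEq G] [Group Γ] [CommGroup Q] (π : G →* Γ)
    (hπ : Function.Surjective π) (ι : Q →* Γ) (P : Finset Γ)
    (hP : ∀ γ : Γ, ∃ q : Q, ∃ p ∈ P, γ = ι q * p) [Group.FG Q]
    (A : Subgroup G) (hAn : A.Normal) (hA : ∀ a ∈ A, π a = 1)
    (hAC : A ⊓ ⁅π.ker, π.ker⁆ = ⊥)
    (hrank : ∀ n : ℕ, ∃ φ : Multiplicative (Fin n → ℤ) →* G, Function.Injective φ ∧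
      ∀ x, φ x ∈ A)
    (T : Finset G) (h1 : (1 : G) ∈ T) (hgen : ∀ g : G, ∃ n : ℕ, g ∈ T ^ n) :
    ∃ C : ℕ, ∀ n : ℕ, 2 * (T ^ n).card ≤ (T ^ (n + C)).card := by
  classical
  have : Monoid.FG Q := Group.fg_iff_monoid_fg.mp inferInstance
  have : IsNoetherianRing (MonoidAlgebra ℤ Q) := Algebra.FiniteType.isNoetherianRing ℤ _
  obtain ⟨M, _, ρ, β, hβ, hβinj⟩ := exists_crossed π hπ A hA hAC
  let inst : Module (MonoidAlgebra ℤ Q) M :=
    Module.compHom M (MonoidAlgebra.lift ℤ (Module.End ℤ M) Q (ρ.comp ι)).toRingHom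
  have hj : ∀ (q : Q) (m : M), ρ (ι q) m = (MonoidAlgebra.of ℤ Q) q • m := by
    intro q m
    change _ = (MonoidAlgebra.lift ℤ (Module.End ℤ M) Q (ρ.comp ι)) ((MonoidAlgebra.of ℤ Q) q) m
    rw [MonoidAlgebra.lift_of]
    rfl
  have hβ1 : β 1 = 0 := beta_one π ρ β hβ
  have hconj : ∀ a ∈ A, ∀ g : G, β (g * a * g⁻¹) = ρ (π g) (β a) :=
    fun a ha g => beta_conj π ρ β hβ a (hA a ha) g
  have hadd : ∀ a ∈ A, ∀ g : G, β (a * g) = β a + β g := by
    intro a ha g
    rw [hβ, hA a ha, map_one, Module.End.one_apply]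
  -- the submodule `β(A)`
  have hsmul : ∀ r : MonoidAlgebra ℤ Q, ∀ a ∈ A, ∃ b ∈ A, β b = r • β a := by
    intro r
    induction r using MonoidAlgebra.induction_on with
    | of q =>
      intro a ha
      obtain ⟨g, hg⟩ := hπ (ι q)
      exact ⟨g * a * g⁻¹, hAn.conj_mem a ha g, by rw [hconj a ha g, hg, hj]⟩
    | add x y hx hy =>
      intro a ha
      obtain ⟨b, hb, e1⟩ := hx a ha
      obtain ⟨c, hc, e2⟩ := hy a ha
      exact ⟨b * c, mul_mem hb hc, by rw [hadd b hb, e1, e2, add_smul]⟩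
    | smul n x hx =>
      intro a ha
      obtain ⟨b, hb, e1⟩ := hx a ha
      refine ⟨b ^ n, zpow_mem hb n, ?_⟩
      have hpow : ∀ m : ℕ, β (b ^ m) = m • β b := by
        intro m
        induction m with
        | zero => simp [hβ1]
        | succ m ih => rw [pow_succ', hadd b hb, ih, succ_nsmul']
      rw [smul_assoc, ← e1]
      rcases n with m | m
      · simp [hpow]
      · rw [zpow_negSucc]
        have hinv' : β (b ^ (m + 1))⁻¹ = -β (b ^ (m + 1)) := by
          have := hadd (b ^ (m + 1)) (pow_mem hb _) (b ^ (m + 1))⁻¹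
          rw [mul_inv_cancel, hβ1] at this
          exact (neg_eq_of_add_eq_zero_right this.symm).symm
        rw [hinv', hpow, negSucc_zsmul]
  let N : Submodule (MonoidAlgebra ℤ Q) M :=
    { carrier := {m | ∃ a ∈ A, β a = m}
      add_mem' := by
        rintro _ _ ⟨a, ha, rfl⟩ ⟨b, hb, rfl⟩
        exact ⟨a * b, mul_mem ha hb, hadd a ha b⟩
      zero_mem' := ⟨1, one_mem A, hβ1⟩
      smul_mem' := by
        rintro r _ ⟨a, ha, rfl⟩
        exact hsmul r a ha }
  -- `N` is Noetherian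
  set B : Finset M := (P ×ˢ T).image fun z => ρ z.1 (β z.2) with hBdef
  have hB : ∀ p ∈ P, ∀ s ∈ T, ρ p (β s) ∈ B := fun p hp s hs =>
    Finset.mem_image.mpr ⟨(p, s), Finset.mem_product.mpr ⟨hp, hs⟩, rfl⟩
  have hspan : ∀ n : ℕ, ∀ g ∈ T ^ n, β g ∈ Submodule.span (MonoidAlgebra ℤ Q) (B : Set M) := by
    intro n
    induction n with
    | zero =>
      intro g hg
      rw [pow_zero, Finset.mem_one] at hg
      rw [hg, hβ1]
      exact zero_mem _
    | succ n ih =>
      intro g hg
      rw [pow_succ] at hg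
      obtain ⟨a, ha, b, hb, rfl⟩ := Finset.mem_mul.mp hg
      obtain ⟨q, p, hp, e⟩ := hP (π a)
      rw [hβ, e, map_mul, Module.End.mul_apply, hj]
      exact add_mem (ih a ha) (Submodule.smul_mem _ _ (Submodule.subset_span (hB p hp b hb)))
  have hNle : N ≤ Submodule.span (MonoidAlgebra ℤ Q) (B : Set M) := by
    rintro _ ⟨a, _, rfl⟩
    obtain ⟨n, hn⟩ := hgen a
    exact hspan n a hn
  have hN1 : IsNoetherian (MonoidAlgebra ℤ Q)
      (Submodule.span (MonoidAlgebra ℤ Q) (B : Set M)) := by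
    apply isNoetherian_of_fg_of_noetherian
    exact ⟨B, rfl⟩
  have hN2 : IsNoetherian (MonoidAlgebra ℤ Q) N := isNoetherian_of_le hNle
  -- `N` has infinite rank
  have hNrank : ¬ Module.rank ℤ N < Cardinal.aleph0 := by
    rw [not_lt, Cardinal.aleph0_le]
    intro n
    obtain ⟨φ, hφ, hφA⟩ := hrank n
    let ψ : (Fin n → ℤ) →+ N := AddMonoidHom.mk'
      (fun x => ⟨β (φ (Multiplicative.ofAdd x)), _, hφA _, rfl⟩) (by
        intro x y
        apply Subtype.ext
        change β (φ (Multiplicative.ofAdd (x + y))) = _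
        rw [ofAdd_add, map_mul, hadd _ (hφA _)]
        rfl)
    have hψ : Function.Injective ψ := by
      intro x y hxy
      have h2 := congrArg Subtype.val hxy
      have h3 := hβinj _ (hφA _) _ (hφA _) h2
      exact Multiplicative.ofAdd.injective (hφ h3)
    have h4 := LinearMap.rank_le_of_injective ψ.toIntLinearMap hψ
    rw [rank_fin_fun] at h4
    exact h4
  obtain ⟨m₀, hprime, hrk⟩ := exists_prime (R := MonoidAlgebra ℤ Q) (M := N) hNrank
  obtain ⟨f, hfA, hfm⟩ := m₀.2
  set I : Ideal (MonoidAlgebra ℤ Q) :=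
    LinearMap.ker (LinearMap.toSpanSingleton (MonoidAlgebra ℤ Q) N m₀) with hI
  have : I.IsPrime := hprime
  have hImem : ∀ r, r ∈ I ↔ r • β f = 0 := by
    intro r
    rw [hI, LinearMap.mem_ker, LinearMap.toSpanSingleton_apply, hfm]
    constructor
    · intro h
      have := congrArg Subtype.val h
      simpa using this
    · intro h
      apply Subtype.ext
      simpa using h
  have hDrank : ¬ Module.rank ℤ (MonoidAlgebra ℤ Q ⧸ I) < Cardinal.aleph0 := by
    rw [not_lt] at hrk ⊢
    rw [← LinearMap.range_toSpanSingleton] at hrk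
    refine hrk.trans ?_
    let e0 := (LinearMap.quotKerEquivRange
        (LinearMap.toSpanSingleton (MonoidAlgebra ℤ Q) N m₀)).symm
    let e1 : LinearMap.range (LinearMap.toSpanSingleton (MonoidAlgebra ℤ Q) N m₀) →+
        (MonoidAlgebra ℤ Q ⧸ I) := AddMonoidHom.mk' e0 (map_add e0)
    exact LinearMap.rank_le_of_injective e1.toIntLinearMap e0.injective
  obtain ⟨hchar, q₀, hq₀⟩ := exists_transcendental (Ideal.Quotient.mk I)
    Ideal.Quotient.mk_surjective hDrank
  set D := MonoidAlgebra ℤ Q ⧸ I with hD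
  have : CharZero D := hchar
  set F := FractionRing D with hF
  have : CharZero F := charZero_of_injective_algebraMap (IsFractionRing.injective D F)
  set χ : MonoidAlgebra ℤ Q →+* F := (algebraMap D F).comp (Ideal.Quotient.mk I) with hχ
  have hχ0 : ∀ r, χ r = 0 ↔ r • β f = 0 := by
    intro r
    rw [← hImem, hχ, RingHom.comp_apply, map_eq_zero_iff _ (IsFractionRing.injective D F),
      Ideal.Quotient.eq_zero_iff_mem]
  obtain ⟨v, hv1, hv2⟩ : ∃ v : Valuation F (WithZero (Multiplicative ℤ)),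
      (∀ n : ℤ, n ≠ 0 → v (n : F) = 1) ∧ 1 < v (χ (MonoidAlgebra.of ℤ Q q₀)) := by
    obtain ⟨E, hE⟩ := (inferInstance : Monoid.FG Q)
    set S' : Set F := (fun q => χ (MonoidAlgebra.of ℤ Q q)) '' (E : Set Q) with hS'
    have hof : ∀ q : Q, χ (MonoidAlgebra.of ℤ Q q) ∈ IntermediateField.adjoin ℚ S' := by
      intro q
      have hq : q ∈ Submonoid.closure (E : Set Q) := by rw [hE]; trivial
      induction hq using Submonoid.closure_induction with
      | mem x hx => exact IntermediateField.subset_adjoin ℚ S' ⟨x, hx, rfl⟩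
      | one => rw [map_one, map_one]; exact one_mem _
      | mul x y _ _ hx hy => rw [map_mul, map_mul]; exact mul_mem hx hy
    have hR : ∀ r : MonoidAlgebra ℤ Q, χ r ∈ IntermediateField.adjoin ℚ S' := by
      intro r
      induction r using MonoidAlgebra.induction_on with
      | of q => exact hof q
      | add x y hx hy => rw [map_add]; exact add_mem hx hy
      | smul n x hx =>
        rw [map_zsmul]
        exact zsmul_mem hx n
    have htop : IntermediateField.adjoin ℚ S' = ⊤ := by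
      rw [eq_top_iff]
      intro z _
      obtain ⟨a, b, _, rfl⟩ := IsFractionRing.div_surjective D z
      obtain ⟨a', rfl⟩ := Ideal.Quotient.mk_surjective a
      obtain ⟨b', rfl⟩ := Ideal.Quotient.mk_surjective b
      exact div_mem (hR a') (hR b')
    have htr : Transcendental ℚ (χ (MonoidAlgebra.of ℤ Q q₀)) := by
      have h3 : Transcendental ℤ (algebraMap D F (Ideal.Quotient.mk I (MonoidAlgebra.of ℤ Q q₀))) :=
        (transcendental_algebraMap_iff (IsFractionRing.injective D F)).mpr hq₀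
      apply transcendental_rat
      exact transcendental_inst _ _ _ h3
    exact exists_valuation S' ((Finset.finite_toSet E).image _) htop _ htr
  obtain ⟨C₁, hC₁⟩ := bound v χ (β f) (fun r hr => (hχ0 r).mpr hr) B q₀ hv2
  obtain ⟨δ, hδ, hsep⟩ := sep v hv1 ((χ : MonoidAlgebra ℤ Q →* F).comp (MonoidAlgebra.of ℤ Q))
  refine core v (MonoidAlgebra.of ℤ Q) ι π hπ ρ β hβ hj P hP χ f (hA f hfA) hχ0 ?_ T h1 hgen
    B hB C₁ hC₁ q₀ hv2 δ hδ hsep
  intro g g' h
  exact hβinj _ (hAn.conj_mem f hfA g) _ (hAn.conj_mem f hfA g') h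

end Pool.Agent.MB73
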